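import Mathlib

set_option autoImplicit false

/-! # Gaussian averages -/

namespace Pool.Agent.W677.Mar

open Complex Metric Set Filter Topology MeasureTheory

/-- the Gaussian integral with a linear term on `ℂ` -/
theorem gauss1 {b : ℝ} (hb : 0 < b) (w : ℂ) :
    Integrable (fun t : ℂ => Real.exp (-b * ‖t‖ ^ 2 + ((starRingEnd ℂ) t * w).re)) ∧
    ∫ t : ℂ, Real.exp (-b * ‖t‖ ^ 2 + ((starRingEnd ℂ) t * w).re) =
      Real.pi / b * Real.exp (‖w‖ ^ 2 / (4 * b)) := by
  have hbc : 0 < (b : ℂ).re := by simpa using hb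
  have e : ∀ t : ℂ, Complex.exp (-(b : ℂ) * ‖t‖ ^ 2 + 1 * (inner ℝ w t : ℝ)) =
      ((Real.exp (-b * ‖t‖ ^ 2 + ((starRingEnd ℂ) t * w).re) : ℝ) : ℂ) := by
    intro t
    rw [Complex.inner, Complex.ofReal_exp]
    congr 1
    push_cast
    have : (t * (starRingEnd ℂ) w).re = ((starRingEnd ℂ) t * w).re := by
      simp only [mul_re, conj_re, conj_im]
      ring
    rw [this]
    ring
  constructor
  · have h := (GaussianFourier.integrable_cexp_neg_mul_sq_norm_add (V := ℂ) hbc 1 w).re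
    refine h.congr (Eventually.of_forall fun t => ?_)
    show RCLike.re (Complex.exp (-(b : ℂ) * ‖t‖ ^ 2 + 1 * (inner ℝ w t : ℝ))) = _
    rw [e]
    exact Complex.ofReal_re _
  · have h := GaussianFourier.integral_cexp_neg_mul_sq_norm_add (V := ℂ) hbc 1 w
    simp only [e] at h
    rw [integral_complex_ofReal] at h
    have e2 : ((Module.finrank ℝ ℂ : ℕ) / 2 : ℂ) = 1 := by
      rw [Complex.finrank_real_complex]
      norm_num
    rw [e2, Complex.cpow_one] at h
    have e3 : ((Real.pi : ℂ) / b) * Complex.exp (1 ^ 2 * ‖w‖ ^ 2 / (4 * b)) =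
        ((Real.pi / b * Real.exp (‖w‖ ^ 2 / (4 * b)) : ℝ) : ℂ) := by
      push_cast
      congr 2
      ring
    rw [e3] at h
    exact_mod_cast h

theorem gauss0 {b : ℝ} (hb : 0 < b) : Integrable (fun t : ℂ => Real.exp (-b * ‖t‖ ^ 2)) ∧
    ∫ t : ℂ, Real.exp (-b * ‖t‖ ^ 2) = Real.pi / b := by
  have h := gauss1 hb 0
  simp only [mul_zero, zero_re, add_zero, norm_zero, ne_eq, OfNat.ofNat_ne_zero, not_false_eq_true,
    zero_pow, zero_div, Real.exp_zero, mul_one] at h
  exact h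

/-- Gaussian averaging of exponential moments -/
theorem gauss_avg {h : ℝ → ℂ} (hc : Continuous h) {M : ℝ} (hM : ∀ θ, ‖h θ‖ ≤ M) {b : ℝ} (hb : 0 < b)
    {B : ℂ → ℝ} (hB : ∀ t, ∫ θ in (0 : ℝ)..(2 * Real.pi), Real.exp ((starRingEnd ℂ) t * h θ).re ≤ B t)
    (hBi : Integrable (fun t : ℂ => Real.exp (-b * ‖t‖ ^ 2) * B t)) :
    ∫ θ in (0 : ℝ)..(2 * Real.pi), Real.exp (‖h θ‖ ^ 2 / (4 * b)) ≤
      b / Real.pi * ∫ t : ℂ, Real.exp (-b * ‖t‖ ^ 2) * B t := by
  have hpi := Real.pi_pos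
  have hM0 : 0 ≤ M := (norm_nonneg _).trans (hM 0)
  set μ : Measure ℝ := volume.restrict (Ioc 0 (2 * Real.pi)) with hμ
  set f : ℝ → ℂ → ℝ := fun θ t => Real.exp (-b * ‖t‖ ^ 2 + ((starRingEnd ℂ) t * h θ).re) with hf
  have hfc : Continuous (Function.uncurry f) := by
    apply Real.continuous_exp.comp
    apply Continuous.add
    · exact continuous_const.mul (continuous_snd.norm.pow 2)
    · exact continuous_re.comp ((continuous_conj.comp continuous_snd).mul (hc.comp continuous_fst))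
  have hint : Integrable (Function.uncurry f) (μ.prod volume) := by
    have h0 := (gauss0 (by linarith : 0 < b / 2)).1
    have h1 : Integrable (fun q : ℝ × ℂ => Real.exp (-(b / 2) * ‖q.2‖ ^ 2)) (μ.prod volume) :=
      Integrable.comp_snd h0 μ
    refine (h1.const_mul (Real.exp (M ^ 2 / (2 * b)))).mono' hfc.aestronglyMeasurable ?_
    refine Eventually.of_forall fun q => ?_
    obtain ⟨θ, t⟩ := q
    simp only [hf, Function.uncurry_apply_pair]
    rw [Real.norm_of_nonneg (Real.exp_pos _).le, ← Real.exp_add]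
    apply Real.exp_le_exp.2
    have h2 : ((starRingEnd ℂ) t * h θ).re ≤ ‖t‖ * M := by
      refine (re_le_norm _).trans ?_
      rw [norm_mul, RCLike.norm_conj]
      exact mul_le_mul_of_nonneg_left (hM θ) (norm_nonneg t)
    have h3 : 0 ≤ (b * ‖t‖ - M) ^ 2 / (2 * b) := by positivity
    have h4 : (b * ‖t‖ - M) ^ 2 / (2 * b) = b / 2 * ‖t‖ ^ 2 - ‖t‖ * M + M ^ 2 / (2 * b) := by
      field_simp
      ring
    rw [h4] at h3
    linarith
  have hpt : ∀ θ, Real.exp (‖h θ‖ ^ 2 / (4 * b)) = b / Real.pi * ∫ t : ℂ, f θ t := by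
    intro θ
    simp only [hf]
    rw [(gauss1 hb (h θ)).2]
    field_simp
  have h1 : ∫ θ in (0 : ℝ)..(2 * Real.pi), Real.exp (‖h θ‖ ^ 2 / (4 * b)) =
      b / Real.pi * ∫ t : ℂ, ∫ θ, f θ t ∂μ := by
    rw [intervalIntegral.integral_of_le (by positivity)]
    simp only [hpt]
    rw [integral_const_mul]
    congr 1
    exact integral_integral_swap hint
  rw [h1]
  apply mul_le_mul_of_nonneg_left _ (by positivity)
  apply integral_mono hint.integral_prod_right hBi
  intro t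
  show ∫ θ, f θ t ∂μ ≤ _
  have h2 : ∫ θ, f θ t ∂μ = Real.exp (-b * ‖t‖ ^ 2) *
      ∫ θ in (0 : ℝ)..(2 * Real.pi), Real.exp ((starRingEnd ℂ) t * h θ).re := by
    rw [intervalIntegral.integral_of_le (by positivity), ← integral_const_mul]
    simp only [hf, Real.exp_add]
    rfl
  rw [h2]
  exact mul_le_mul_of_nonneg_left (hB t) (Real.exp_pos _).le

end Pool.Agent.W677.Mar
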