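import Mathlib

set_option autoImplicit false

/-! # Positive real part: oscillation on half discs, Poisson bound on arcs, localisation -/

namespace Pool.Agent.W677.Mar

open Complex Metric Set Filter Topology MeasureTheory

/-- oscillation of a function of positive real part (Borel-Caratheodory) -/
theorem bc {P : ℂ → ℂ} {w : ℂ} {δ : ℝ} (hP : DifferentiableOn ℂ P (ball w δ))
    (hpos : ∀ x ∈ ball w δ, 0 < (P x).re) {x : ℂ} (hx : x ∈ ball w δ) :
    ‖P x - P w‖ ≤ 2 * (P w).re * ‖x - w‖ / (δ - ‖x - w‖) := by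
  have hδ : 0 < δ := pos_of_mem_ball hx
  have hw : w ∈ ball w δ := mem_ball_self hδ
  have hM := hpos w hw
  have hmap : ∀ z ∈ ball (0 : ℂ) δ, w + z ∈ ball w δ := by
    intro z hz
    rw [mem_ball_iff_norm]
    simpa using hz
  have hf : DifferentiableOn ℂ (fun z => P w - P (w + z)) (ball 0 δ) := by
    apply DifferentiableOn.const_sub
    exact hP.comp ((differentiableOn_const _).add differentiableOn_id) hmap
  have h1 := Complex.borelCaratheodory_zero (f := fun z => P w - P (w + z)) (M := (P w).re) (R := δ)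
    (z := x - w) hM hf (by
      intro z hz
      have := hpos _ (hmap z hz)
      simp only [mem_ofPred_eq, sub_re]
      linarith) hδ (by
      rw [mem_ball_zero_iff]
      exact mem_ball_iff_norm.1 hx) (by simp)
  have h2 : w + (x - w) = x := by ring
  simp only [h2] at h1
  rw [norm_sub_rev]
  exact h1

/-- oscillation on the half disc -/
theorem osc {P : ℂ → ℂ} {w : ℂ} {δ : ℝ} (hδ : 0 < δ) (hP : DifferentiableOn ℂ P (ball w δ))
    (hpos : ∀ x ∈ ball w δ, 0 < (P x).re) {x : ℂ} (hx : ‖x - w‖ ≤ δ / 2) :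
    ‖P x - P w‖ ≤ 2 * (P w).re := by
  have hxb : x ∈ ball w δ := by
    rw [mem_ball_iff_norm]
    linarith
  have hM := hpos w (mem_ball_self hδ)
  refine (bc hP hpos hxb).trans ?_
  rw [div_le_iff₀ (by linarith)]
  nlinarith [norm_nonneg (x - w)]

/-- Harnack -/
theorem harn {P : ℂ → ℂ} {w : ℂ} {δ : ℝ} (hδ : 0 < δ) (hP : DifferentiableOn ℂ P (ball w δ))
    (hpos : ∀ x ∈ ball w δ, 0 < (P x).re) {x : ℂ} (hx : ‖x - w‖ ≤ δ / 2) :
    (P x).re ≤ 3 * (P w).re := by
  have h1 := osc hδ hP hpos hx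
  have h2 := (abs_le.1 ((abs_re_le_norm (P x - P w)).trans h1)).2
  rw [sub_re] at h2
  linarith

/-- the point `r e^{i θ}` -/
noncomputable def pt (r θ : ℝ) : ℂ := circleMap 0 r θ

theorem norm_pt (r θ : ℝ) (hr : 0 ≤ r) : ‖pt r θ‖ = r := by
  rw [pt, norm_circleMap_zero, abs_of_nonneg hr]

theorem pt_eq (r θ : ℝ) : pt r θ = (r : ℂ) * pt 1 θ := by
  simp [pt, circleMap]

theorem pt_sub (r s θ : ℝ) : pt r θ - pt s θ = ((r - s : ℝ) : ℂ) * pt 1 θ := by
  rw [pt_eq r, pt_eq s]
  push_cast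
  ring

theorem norm_pt_sub (r s θ : ℝ) : ‖pt r θ - pt s θ‖ = |r - s| := by
  rw [pt_sub, norm_mul, norm_pt 1 θ zero_le_one, mul_one, Complex.norm_real, Real.norm_eq_abs]

theorem norm_pt_sub_angle (r θ φ : ℝ) (hr : 0 ≤ r) : ‖pt r θ - pt r φ‖ ≤ r * |θ - φ| := by
  have h : pt r θ - pt r φ = (r : ℂ) * (Complex.exp (φ * I) * (Complex.exp (((θ - φ : ℝ) : ℂ) * I) - 1)) := by
    have e : Complex.exp (θ * I) = Complex.exp (φ * I) * Complex.exp (((θ - φ : ℝ) : ℂ) * I) := by
      rw [← Complex.exp_add]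
      congr 1
      push_cast
      ring
    simp only [pt, circleMap, zero_add]
    rw [e]
    ring
  rw [h, norm_mul, norm_mul, Complex.norm_exp_ofReal_mul_I, one_mul, Complex.norm_real,
    Real.norm_of_nonneg hr]
  refine mul_le_mul_of_nonneg_left ?_ hr
  have h2 := Real.norm_exp_I_mul_ofReal_sub_one_le (x := θ - φ)
  rw [mul_comm I] at h2
  simpa using h2

theorem pt_periodic (r : ℝ) : Function.Periodic (pt r) (2 * Real.pi) := periodic_circleMap 0 r

theorem continuous_pt (r : ℝ) : Continuous (pt r) := continuous_circleMap 0 r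

/-- lower Poisson bound on arcs -/
theorem arc {g : ℂ → ℂ} {R₁ : ℝ} (hR₁ : 1 < R₁) (hg : DifferentiableOn ℂ g (ball 0 R₁))
    (hpos : ∀ z ∈ ball (0 : ℂ) R₁, 0 ≤ (g z).re) {ρ : ℝ} (hρ0 : 0 ≤ ρ) (hρ : ρ < 1) (φ : ℝ) :
    ∫ x in (-((1 - ρ) / 2))..((1 - ρ) / 2), (g (pt 1 (φ + x))).re ≤
      9 * Real.pi / 2 * (1 - ρ) * (g (pt ρ φ)).re := by
  have hpi := Real.pi_pos
  have hpi3 := Real.pi_gt_three
  obtain ⟨δ, hδ⟩ : ∃ δ, δ = 1 - ρ := ⟨_, rfl⟩
  have hδ0 : 0 < δ := by rw [hδ]; linarith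
  have hδ1 : δ ≤ 1 := by rw [hδ]; linarith
  rw [← hδ]
  have hcl : DiffContOnCl ℂ g (ball 0 1) :=
    hg.diffContOnCl_ball (closedBall_subset_ball hR₁)
  have hw : pt ρ φ ∈ ball (0 : ℂ) 1 := by
    rw [mem_ball_zero_iff, norm_pt ρ φ hρ0]
    exact hρ
  have h1 := hcl.circleAverage_poissonKernel_smul hw
  rw [Real.circleAverage_def] at h1
  -- the real integrand
  set F : ℝ → ℝ := fun θ => poissonKernel 0 (pt ρ φ) (pt 1 θ) * (g (pt 1 θ)).re with hF
  have hne : ∀ θ : ℝ, pt 1 θ - 0 - (pt ρ φ - 0) ≠ 0 := by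
    intro θ h
    rw [sub_zero, sub_zero, sub_eq_zero] at h
    have := congrArg norm h
    rw [norm_pt 1 θ zero_le_one, norm_pt ρ φ hρ0] at this
    linarith
  have hsph : ∀ θ : ℝ, pt 1 θ ∈ ball (0 : ℂ) R₁ := by
    intro θ
    rw [mem_ball_zero_iff, norm_pt 1 θ zero_le_one]
    exact hR₁
  have hKc : Continuous fun θ : ℝ => poissonKernel 0 (pt ρ φ) (pt 1 θ) := by
    simp only [poissonKernel_def]
    apply Continuous.div
    · exact (((continuous_pt 1).sub continuous_const).norm.pow 2).sub continuous_const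
    · exact (((continuous_pt 1).sub continuous_const).sub continuous_const).norm.pow 2
    · intro θ
      exact pow_ne_zero _ (norm_ne_zero_iff.2 (hne θ))
  have hgc : Continuous fun θ : ℝ => g (pt 1 θ) :=
    hg.continuousOn.comp_continuous (continuous_pt 1) hsph
  have hFc : Continuous F := hKc.mul (continuous_re.comp hgc)
  have h2 : (2 * Real.pi)⁻¹ * ∫ θ in (0 : ℝ)..(2 * Real.pi), F θ = (g (pt ρ φ)).re := by
    have h3 := congrArg Complex.re h1
    rw [← h3]
    have h4 : (∫ θ in (0 : ℝ)..(2 * Real.pi),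
        (poissonKernel 0 (pt ρ φ) • g) (circleMap 0 1 θ)).re = ∫ θ in (0 : ℝ)..(2 * Real.pi), F θ := by
      have h5 := reCLM.intervalIntegral_comp_comm (a := (0 : ℝ)) (b := 2 * Real.pi)
        (μ := volume)
        (f := fun θ => (poissonKernel 0 (pt ρ φ) • g) (circleMap 0 1 θ)) (by
          apply Continuous.intervalIntegrable
          have : (fun θ => (poissonKernel 0 (pt ρ φ) • g) (circleMap 0 1 θ)) =
            fun θ => (poissonKernel 0 (pt ρ φ) (pt 1 θ)) • g (pt 1 θ) := rfl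
          rw [this]
          exact hKc.smul hgc)
      rw [← reCLM_apply, ← h5]
      refine intervalIntegral.integral_congr fun θ _ => ?_
      simp only [hF, reCLM_apply, Pi.smul_apply', Complex.smul_re, smul_eq_mul]
      rfl
    rw [Complex.smul_re, smul_eq_mul, h4]
  have hFper : Function.Periodic F (2 * Real.pi) := by
    intro θ
    simp only [hF, pt_periodic 1 θ]
  have h3 : ∫ θ in (0 : ℝ)..(2 * Real.pi), F θ = ∫ x in (-Real.pi)..Real.pi, F (φ + x) := by
    have h4 := hFper.intervalIntegral_add_eq 0 (φ - Real.pi)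
    rw [zero_add] at h4
    rw [h4, intervalIntegral.integral_comp_add_left]
    congr 1 <;> ring
  have hF0 : ∀ θ, 0 ≤ F θ := by
    intro θ
    refine mul_nonneg ?_ (hpos _ (hsph θ))
    rw [poissonKernel_def]
    apply div_nonneg _ (sq_nonneg _)
    rw [sub_zero, sub_zero, norm_pt 1 θ zero_le_one, norm_pt ρ φ hρ0]
    nlinarith
  have h4 : ∫ x in (-(δ / 2))..(δ / 2), F (φ + x) ≤ ∫ x in (-Real.pi)..Real.pi, F (φ + x) := by
    apply intervalIntegral.integral_mono_interval (by linarith) (by linarith) (by linarith)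
    · exact Eventually.of_forall fun x => hF0 _
    · exact (hFc.comp (continuous_const.add continuous_id)).intervalIntegrable _ _
  have h5 : ∫ x in (-(δ / 2))..(δ / 2), (4 / (9 * δ)) * (g (pt 1 (φ + x))).re ≤
      ∫ x in (-(δ / 2))..(δ / 2), F (φ + x) := by
    apply intervalIntegral.integral_mono_on (by linarith)
    · apply Continuous.intervalIntegrable
      exact continuous_const.mul (continuous_re.comp (hgc.comp (continuous_const.add continuous_id)))
    · exact (hFc.comp (continuous_const.add continuous_id)).intervalIntegrable _ _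
    · intro x hx
      refine mul_le_mul_of_nonneg_right ?_ (hpos _ (hsph _))
      rw [poissonKernel_def, sub_zero, sub_zero, norm_pt 1 _ zero_le_one, norm_pt ρ φ hρ0]
      have hd : ‖pt 1 (φ + x) - pt ρ φ‖ ≤ 3 * δ / 2 := by
        have e : pt 1 (φ + x) - pt ρ φ = (pt 1 (φ + x) - pt 1 φ) + (pt 1 φ - pt ρ φ) := by ring
        rw [e]
        refine (norm_add_le _ _).trans ?_
        have a1 := norm_pt_sub_angle 1 (φ + x) φ zero_le_one
        have a2 := norm_pt_sub 1 ρ φ
        rw [abs_of_pos (by linarith)] at a2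
        have a3 : |φ + x - φ| ≤ δ / 2 := by
          rw [add_sub_cancel_left, abs_le]
          exact ⟨by linarith [hx.1], hx.2⟩
        rw [a2]
        linarith
      have hd0 : 0 < ‖pt 1 (φ + x) - pt ρ φ‖ := by
        have := hne (φ + x)
        rw [sub_zero, sub_zero] at this
        exact norm_pos_iff.2 this
      rw [div_le_div_iff₀ (by positivity) (by positivity)]
      have hd2 : ‖pt 1 (φ + x) - pt ρ φ‖ ^ 2 ≤ 9 * δ ^ 2 / 4 := by nlinarith
      have : 1 ^ 2 - ρ ^ 2 ≥ δ := by rw [hδ]; nlinarith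
      nlinarith [mul_pos hδ0 hδ0]
  rw [intervalIntegral.integral_const_mul] at h5
  have h6 : (4 / (9 * δ)) * ∫ x in (-(δ / 2))..(δ / 2), (g (pt 1 (φ + x))).re ≤
      2 * Real.pi * (g (pt ρ φ)).re := by
    rw [← h2, h3]
    have : 2 * Real.pi * ((2 * Real.pi)⁻¹ * ∫ x in (-Real.pi)..Real.pi, F (φ + x)) =
        ∫ x in (-Real.pi)..Real.pi, F (φ + x) := by
      field_simp
    rw [this]
    exact h5.trans h4
  have h7 : ∫ x in (-(δ / 2))..(δ / 2), (g (pt 1 (φ + x))).re =
      (9 * δ / 4) * ((4 / (9 * δ)) * ∫ x in (-(δ / 2))..(δ / 2), (g (pt 1 (φ + x))).re) := by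
    field_simp
  rw [h7]
  have h8 := mul_le_mul_of_nonneg_left h6 (by positivity : (0 : ℝ) ≤ 9 * δ / 4)
  refine h8.trans (le_of_eq ?_)
  ring

/-- localisation: the boundary values of a positive harmonic function against a weight which
varies slowly at scale `1 - ρ` -/
theorem loc {g : ℂ → ℂ} {R₁ : ℝ} (hR₁ : 1 < R₁) (hg : DifferentiableOn ℂ g (ball 0 R₁))
    (hpos : ∀ z ∈ ball (0 : ℂ) R₁, 0 ≤ (g z).re) {ρ : ℝ} (hρ0 : 0 ≤ ρ) (hρ : ρ < 1)
    {W : ℝ → ℝ} (hW : Continuous W) (hW0 : ∀ θ, 0 ≤ W θ) (hWp : Function.Periodic W (2 * Real.pi))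
    {C₀ : ℝ} (hWs : ∀ θ φ : ℝ, |θ - φ| ≤ (1 - ρ) / 2 → W θ ≤ C₀ * W φ) (hC₀ : 0 ≤ C₀) :
    ∫ θ in (0 : ℝ)..(2 * Real.pi), W θ * (g (pt 1 θ)).re ≤
      9 * Real.pi / 2 * C₀ * ∫ φ in (0 : ℝ)..(2 * Real.pi), W φ * (g (pt ρ φ)).re := by
  have hpi := Real.pi_pos
  obtain ⟨δ, hδ⟩ : ∃ δ, δ = 1 - ρ := ⟨_, rfl⟩
  have hδ0 : 0 < δ := by rw [hδ]; linarith
  have hδ1 : δ ≤ 1 := by rw [hδ]; linarith
  have hsph : ∀ θ : ℝ, pt 1 θ ∈ ball (0 : ℂ) R₁ := by
    intro θ
    rw [mem_ball_zero_iff, norm_pt 1 θ zero_le_one]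
    exact hR₁
  have hgc : Continuous fun θ : ℝ => (g (pt 1 θ)).re :=
    continuous_re.comp (hg.continuousOn.comp_continuous (continuous_pt 1) hsph)
  have hsphρ : ∀ θ : ℝ, pt ρ θ ∈ ball (0 : ℂ) R₁ := by
    intro θ
    rw [mem_ball_zero_iff, norm_pt ρ θ hρ0]
    linarith
  have hgcρ : Continuous fun θ : ℝ => (g (pt ρ θ)).re :=
    continuous_re.comp (hg.continuousOn.comp_continuous (continuous_pt ρ) hsphρ)
  obtain ⟨X, hX⟩ : ∃ X, X = ∫ θ in (0 : ℝ)..(2 * Real.pi), W θ * (g (pt 1 θ)).re := ⟨_, rfl⟩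
  rw [← hX]
  -- shifted inequality
  have h1 : ∀ x ∈ Icc (-(δ / 2)) (δ / 2), X ≤
      C₀ * ∫ φ in (0 : ℝ)..(2 * Real.pi), W φ * (g (pt 1 (φ + x))).re := by
    intro x hx
    have hper : Function.Periodic (fun θ => W (θ - x) * (g (pt 1 θ)).re) (2 * Real.pi) := by
      intro θ
      have e : θ + 2 * Real.pi - x = (θ - x) + 2 * Real.pi := by ring
      simp only [pt_periodic 1 θ, e, hWp (θ - x)]
    have e1 : ∫ φ in (0 : ℝ)..(2 * Real.pi), W φ * (g (pt 1 (φ + x))).re =
        ∫ θ in (0 : ℝ)..(2 * Real.pi), W (θ - x) * (g (pt 1 θ)).re := by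
      have e2 := hper.intervalIntegral_add_eq 0 x
      rw [zero_add] at e2
      rw [e2]
      have e3 := intervalIntegral.integral_comp_add_right (a := 0) (b := 2 * Real.pi)
        (fun θ => W (θ - x) * (g (pt 1 θ)).re) x
      simp only [add_sub_cancel_right] at e3
      rw [e3]
      congr 1 <;> ring
    rw [e1, hX, ← intervalIntegral.integral_const_mul]
    apply intervalIntegral.integral_mono_on (by linarith)
    · exact (hW.mul hgc).intervalIntegrable _ _
    · exact (continuous_const.mul ((hW.comp (continuous_id.sub continuous_const)).mul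
        hgc)).intervalIntegrable _ _
    · intro θ _
      rw [← mul_assoc]
      refine mul_le_mul_of_nonneg_right (hWs θ (θ - x) ?_) (hpos _ (hsph θ))
      rw [sub_sub_cancel, ← hδ, abs_le]
      exact hx
  have hjoint : Continuous (fun q : ℝ × ℝ => W q.2 * (g (pt 1 (q.2 + q.1))).re) :=
    (hW.comp continuous_snd).mul (hgc.comp (continuous_snd.add continuous_fst))
  have h2 : δ * X ≤ ∫ x in (-(δ / 2))..(δ / 2),
      C₀ * ∫ φ in (0 : ℝ)..(2 * Real.pi), W φ * (g (pt 1 (φ + x))).re := by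
    have e : δ * X = ∫ x in (-(δ / 2))..(δ / 2), X := by
      rw [intervalIntegral.integral_const, smul_eq_mul]
      ring
    rw [e]
    apply intervalIntegral.integral_mono_on (by linarith)
    · exact continuous_const.intervalIntegrable _ _
    · apply Continuous.intervalIntegrable
      apply continuous_const.mul
      exact intervalIntegral.continuous_parametric_intervalIntegral_of_continuous' hjoint 0 _
    · exact h1
  rw [intervalIntegral.integral_const_mul] at h2
  have h3 : ∫ x in (-(δ / 2))..(δ / 2), ∫ φ in (0 : ℝ)..(2 * Real.pi), W φ * (g (pt 1 (φ + x))).re =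
      ∫ φ in (0 : ℝ)..(2 * Real.pi), ∫ x in (-(δ / 2))..(δ / 2), W φ * (g (pt 1 (φ + x))).re := by
    apply intervalIntegral_intervalIntegral_swap
    have : Continuous (Function.uncurry fun x φ : ℝ => W φ * (g (pt 1 (φ + x))).re) := hjoint
    apply this.continuousOn.integrableOn_of_subset_isCompact
      (K := uIcc (-(δ / 2)) (δ / 2) ×ˢ uIcc 0 (2 * Real.pi))
    · exact isCompact_uIcc.prod isCompact_uIcc
    · exact measurableSet_uIoc.prod measurableSet_uIoc
    · exact prod_mono uIoc_subset_uIcc uIoc_subset_uIcc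
    · exact ((measure_mono (Set.prod_mono uIoc_subset_uIcc uIoc_subset_uIcc)).trans_lt
        (isCompact_uIcc.prod isCompact_uIcc).measure_lt_top).ne
  have h4 : ∫ φ in (0 : ℝ)..(2 * Real.pi), ∫ x in (-(δ / 2))..(δ / 2), W φ * (g (pt 1 (φ + x))).re ≤
      ∫ φ in (0 : ℝ)..(2 * Real.pi), (9 * Real.pi / 2 * δ) * (W φ * (g (pt ρ φ)).re) := by
    apply intervalIntegral.integral_mono_on (by linarith)
    · apply Continuous.intervalIntegrable
      have : Continuous (Function.uncurry fun φ x : ℝ => W φ * (g (pt 1 (φ + x))).re) :=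
        (hW.comp continuous_fst).mul (hgc.comp (continuous_fst.add continuous_snd))
      exact intervalIntegral.continuous_parametric_intervalIntegral_of_continuous' this _ _
    · exact (continuous_const.mul (hW.mul hgcρ)).intervalIntegrable _ _
    · intro φ _
      rw [intervalIntegral.integral_const_mul]
      have := arc hR₁ hg hpos hρ0 hρ φ
      rw [← hδ] at this
      calc W φ * ∫ x in (-(δ / 2))..(δ / 2), (g (pt 1 (φ + x))).re
          ≤ W φ * (9 * Real.pi / 2 * δ * (g (pt ρ φ)).re) := mul_le_mul_of_nonneg_left this (hW0 φ)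
        _ = _ := by ring
  rw [intervalIntegral.integral_const_mul] at h4
  rw [h3] at h2
  have h5 := h2.trans (mul_le_mul_of_nonneg_left h4 hC₀)
  have h6 : δ * X ≤ δ * (9 * Real.pi / 2 * C₀ * ∫ φ in (0 : ℝ)..(2 * Real.pi),
      W φ * (g (pt ρ φ)).re) := by
    refine h5.trans (le_of_eq ?_)
    ring
  exact le_of_mul_le_mul_left h6 hδ0

end Pool.Agent.W677.Mar
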