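import Pool.Agent.H64.G.R_seed8.W677.Mar2

set_option autoImplicit false

/-! # The core estimate on the closed disc -/

namespace Pool.Agent.W677.Mar

open Complex Metric Set Filter Topology MeasureTheory

/-- the radii `1 - 2^{-i}` -/
noncomputable def rr (i : ℕ) : ℝ := 1 - (1 / 2) ^ i

theorem rr_lt (i : ℕ) : rr i < 1 := by
  have : (0 : ℝ) < (1 / 2) ^ i := by positivity
  unfold rr
  linarith

theorem rr_nonneg (i : ℕ) : 0 ≤ rr i := by
  have : ((1 : ℝ) / 2) ^ i ≤ 1 := pow_le_one₀ (by norm_num) (by norm_num)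
  unfold rr
  linarith

theorem rr_half {i : ℕ} (hi : 1 ≤ i) : 1 / 2 ≤ rr i := by
  have : ((1 : ℝ) / 2) ^ i ≤ (1 / 2) ^ 1 := pow_le_pow_of_le_one (by norm_num) (by norm_num) hi
  unfold rr
  linarith

theorem rr_succ (i : ℕ) : rr (i + 1) - rr i = (1 / 2) ^ i / 2 := by
  unfold rr
  rw [pow_succ]
  ring

theorem one_sub_rr (i : ℕ) : 1 - rr i = (1 / 2) ^ i := by
  unfold rr
  ring

theorem tendsto_rr : Tendsto rr atTop (𝓝 1) := by
  have h := tendsto_pow_atTop_nhds_zero_of_lt_one (r := (1 / 2 : ℝ)) (by norm_num) (by norm_num)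
  have := h.const_sub 1
  rw [sub_zero] at this
  exact this

theorem neg_log_rr (i : ℕ) : -Real.log (1 - rr i) = i * Real.log 2 := by
  rw [one_sub_rr, Real.log_pow, one_div, Real.log_inv]
  ring

/-- the data of the closed disc problem -/
structure DA (K Λ B A R₁ : ℝ) (H Q P g b : ℂ → ℂ) (u : ℂ) : Prop where
  R : 1 < R₁
  dH : DifferentiableOn ℂ H (ball 0 R₁)
  dQ : DifferentiableOn ℂ Q (ball 0 R₁)
  dP : DifferentiableOn ℂ P (ball 0 R₁)
  dg : DifferentiableOn ℂ g (ball 0 R₁)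
  db : DifferentiableOn ℂ b (ball 0 R₁)
  bH : ∀ w ∈ ball (0 : ℂ) 1, ‖H w‖ ≤ Λ * -Real.log (1 - ‖w‖)
  pP : ∀ w ∈ ball (0 : ℂ) R₁, 0 < (P w).re
  P0 : ‖P 0‖ ≤ K
  bQ : ∀ w ∈ ball (0 : ℂ) 1, ‖Q w‖ * (1 - ‖w‖) ≤ B
  oQ : ∀ w ∈ ball (0 : ℂ) 1, ∀ x, ‖x - w‖ ≤ (1 - ‖w‖) / 2 → ‖Q x - Q w‖ ≤ 2 * (P w).re
  u1 : ‖u‖ ≤ 1
  sg : ∀ w ∈ ball (0 : ℂ) R₁, |(g w).im| ≤ Real.pi / 2
  bb : ∀ w ∈ ball (0 : ℂ) R₁, ‖b w‖ ≤ A
  eq : ∀ w ∈ ball (0 : ℂ) R₁, w * deriv H w = -Q w + w * (u * deriv g w + deriv b w)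

section

variable {K Λ B A R₁ : ℝ} {H Q P g b : ℂ → ℂ} {u : ℂ}

theorem mem_R (D : DA K Λ B A R₁ H Q P g b u) {t : ℝ} (ht0 : 0 ≤ t) (ht : t ≤ 1) (θ : ℝ) :
    pt t θ ∈ ball (0 : ℂ) R₁ := by
  rw [mem_ball_zero_iff, norm_pt t θ ht0]
  exact ht.trans_lt D.R

/-- the part of `H` coming from `Q` -/
noncomputable def FF (H g b : ℂ → ℂ) (u : ℂ) (θ t : ℝ) : ℂ :=
  H (pt t θ) - u * g (pt t θ) - b (pt t θ)

theorem hasDerivAt_pt (θ t : ℝ) : HasDerivAt (fun t : ℝ => pt t θ) (pt 1 θ) t := by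
  have h1 : (fun t : ℝ => pt t θ) = fun t : ℝ => (t : ℂ) * pt 1 θ := by
    funext t
    exact pt_eq t θ
  rw [h1]
  have h2 := (Complex.ofRealCLM.hasDerivAt (x := t)).mul_const (pt 1 θ)
  simpa using h2

theorem hasDerivAt_FF (D : DA K Λ B A R₁ H Q P g b u) (θ : ℝ) {t : ℝ} (ht0 : 0 < t) (ht : t ≤ 1) :
    HasDerivAt (FF H g b u θ) (-Q (pt t θ) / (t : ℂ)) t := by
  have hm := mem_R D ht0.le ht θ
  have hn := isOpen_ball.mem_nhds hm
  have h1 := ((D.dH.differentiableAt hn).hasDerivAt).comp t (hasDerivAt_pt θ t)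
  have h2 := ((D.dg.differentiableAt hn).hasDerivAt).comp t (hasDerivAt_pt θ t)
  have h3 := ((D.db.differentiableAt hn).hasDerivAt).comp t (hasDerivAt_pt θ t)
  have h4 := (h1.sub (h2.const_mul u)).sub h3
  refine h4.congr_deriv ?_
  have he := D.eq _ hm
  have ht' : (t : ℂ) ≠ 0 := by exact_mod_cast ht0.ne'
  rw [eq_div_iff ht']
  have hp : pt t θ = (t : ℂ) * pt 1 θ := pt_eq t θ
  calc (deriv H (pt t θ) * pt 1 θ - u * (deriv g (pt t θ) * pt 1 θ) -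
      deriv b (pt t θ) * pt 1 θ) * (t : ℂ)
      = ((t : ℂ) * pt 1 θ) * deriv H (pt t θ) -
        ((t : ℂ) * pt 1 θ) * (u * deriv g (pt t θ) + deriv b (pt t θ)) := by ring
    _ = pt t θ * deriv H (pt t θ) - pt t θ * (u * deriv g (pt t θ) + deriv b (pt t θ)) := by
        rw [← hp]
    _ = -Q (pt t θ) := by rw [he]; ring

theorem shell (D : DA K Λ B A R₁ H Q P g b u) (θ : ℝ) {i : ℕ} (hi : 1 ≤ i) :
    ‖Q (pt (rr (i + 1)) θ)‖ ≤ ‖Q (pt (rr i) θ)‖ + 2 * (P (pt (rr i) θ)).re ∧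
    ‖FF H g b u θ (rr (i + 1)) - FF H g b u θ (rr i)‖ ≤
      (1 / 2) ^ i * (‖Q (pt (rr i) θ)‖ + 2 * (P (pt (rr i) θ)).re) ∧
    ‖FF H g b u θ (rr (i + 1)) - FF H g b u θ (rr i)‖ ≤ 2 * B := by
  have h0 := rr_nonneg i
  have h1 := rr_lt i
  have h2 := rr_half hi
  have h3 := rr_succ i
  have h4 := rr_lt (i + 1)
  have hpow : (0 : ℝ) < (1 / 2) ^ i := by positivity
  have hle : rr i ≤ rr (i + 1) := by linarith
  have hosc : ∀ t ∈ Icc (rr i) (rr (i + 1)), ‖Q (pt t θ)‖ ≤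
      ‖Q (pt (rr i) θ)‖ + 2 * (P (pt (rr i) θ)).re := by
    intro t ht
    have a1 := D.oQ (pt (rr i) θ) (by rw [mem_ball_zero_iff, norm_pt _ θ h0]; exact h1) (pt t θ) (by
      rw [norm_pt_sub, norm_pt _ θ h0, abs_of_nonneg (by linarith [ht.1]), one_sub_rr]
      linarith [ht.2])
    have a2 := norm_sub_norm_le (Q (pt t θ)) (Q (pt (rr i) θ))
    linarith
  have hder : ∀ t ∈ Icc (rr i) (rr (i + 1)),
      HasDerivWithinAt (FF H g b u θ) (-Q (pt t θ) / (t : ℂ)) (Icc (rr i) (rr (i + 1))) t := by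
    intro t ht
    exact (hasDerivAt_FF D θ (by linarith [ht.1]) (by linarith [ht.2])).hasDerivWithinAt
  refine ⟨hosc _ ⟨hle, le_rfl⟩, ?_, ?_⟩
  · have hB : ∀ t ∈ Ico (rr i) (rr (i + 1)), ‖-Q (pt t θ) / (t : ℂ)‖ ≤
        2 * (‖Q (pt (rr i) θ)‖ + 2 * (P (pt (rr i) θ)).re) := by
      intro t ht
      have a1 := hosc t ⟨ht.1, ht.2.le⟩
      have a2 : 1 / 2 ≤ t := h2.trans ht.1
      rw [norm_div, norm_neg, Complex.norm_real, Real.norm_of_nonneg (by linarith), div_le_iff₀ (by linarith)]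
      have a3 := norm_nonneg (Q (pt t θ))
      nlinarith
    have h5 := norm_image_sub_le_of_norm_deriv_le_segment' hder hB (rr (i + 1)) ⟨hle, le_rfl⟩
    refine h5.trans (le_of_eq ?_)
    rw [h3]
    ring
  · have hB : ∀ t ∈ Ico (rr i) (rr (i + 1)), ‖-Q (pt t θ) / (t : ℂ)‖ ≤ 4 * B / (1 / 2) ^ i := by
      intro t ht
      have a2 : 1 / 2 ≤ t := h2.trans ht.1
      have a1 := D.bQ (pt t θ) (by
        rw [mem_ball_zero_iff, norm_pt t θ (by linarith)]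
        linarith [ht.2])
      rw [norm_pt t θ (by linarith)] at a1
      have a3 : (1 / 2) ^ i / 2 ≤ 1 - t := by
        have := one_sub_rr i
        linarith [ht.2]
      have a4 := norm_nonneg (Q (pt t θ))
      rw [norm_div, norm_neg, Complex.norm_real, Real.norm_of_nonneg (by linarith),
        div_le_div_iff₀ (by linarith) hpow]
      have a5 : ‖Q (pt t θ)‖ * ((1 / 2) ^ i / 2) ≤ B :=
        (mul_le_mul_of_nonneg_left a3 a4).trans a1
      have hB0 : 0 ≤ B := (mul_nonneg a4 (by positivity)).trans a5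
      nlinarith
    have h5 := norm_image_sub_le_of_norm_deriv_le_segment' hder hB (rr (i + 1)) ⟨hle, le_rfl⟩
    refine h5.trans (le_of_eq ?_)
    rw [h3]
    field_simp
    ring

theorem tele (D : DA K Λ B A R₁ H Q P g b u) (θ : ℝ) {j : ℕ} (hj : 1 ≤ j) (n : ℕ) (hn : j ≤ n) :
    2 * (1 / 2) ^ n * ‖Q (pt (rr n) θ)‖ + ‖FF H g b u θ (rr n) - FF H g b u θ (rr j)‖ ≤
      2 * (1 / 2) ^ j * ‖Q (pt (rr j) θ)‖ +
        4 * ∑ i ∈ Finset.Ico j n, (1 / 2) ^ i * (P (pt (rr i) θ)).re := by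
  induction n, hn using Nat.le_induction with
  | base => simp
  | succ n hn ih =>
    obtain ⟨s1, s2, -⟩ := shell D θ (hj.trans hn)
    rw [Finset.sum_Ico_succ_top hn]
    have hpow : (0 : ℝ) < (1 / 2) ^ n := by positivity
    have e1 : ‖FF H g b u θ (rr (n + 1)) - FF H g b u θ (rr j)‖ ≤
        ‖FF H g b u θ (rr (n + 1)) - FF H g b u θ (rr n)‖ +
        ‖FF H g b u θ (rr n) - FF H g b u θ (rr j)‖ := norm_sub_le_norm_sub_add_norm_sub _ _ _
    have e2 : 2 * (1 / 2) ^ (n + 1) * ‖Q (pt (rr (n + 1)) θ)‖ ≤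
        (1 / 2) ^ n * (‖Q (pt (rr n) θ)‖ + 2 * (P (pt (rr n) θ)).re) := by
      rw [pow_succ]
      have := mul_le_mul_of_nonneg_left s1 hpow.le
      linarith
    linarith

/-- thresholds -/
noncomputable def cc (i : ℕ) : ℝ := 1 / ((i : ℝ) * (i + 1))

theorem cc_pos {i : ℕ} (hi : 1 ≤ i) : 0 < cc i := by
  have : (0 : ℝ) < i := by exact_mod_cast hi
  unfold cc
  positivity

theorem sum_cc (j n : ℕ) (hj : 1 ≤ j) (hn : j ≤ n) : ∑ i ∈ Finset.Ico j n, cc i ≤ 1 := by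
  have h : ∑ i ∈ Finset.Ico j n, cc i = 1 / (j : ℝ) - 1 / (n : ℝ) := by
    induction n, hn using Nat.le_induction with
    | base => simp
    | succ n hn ih =>
      rw [Finset.sum_Ico_succ_top hn, ih]
      have h1 : (n : ℝ) ≠ 0 := by
        have : 1 ≤ n := hj.trans hn
        positivity
      have h2 : (n : ℝ) + 1 ≠ 0 := by positivity
      unfold cc
      push_cast
      field_simp
      ring
  rw [h]
  have h1 : 1 / (j : ℝ) ≤ 1 := by
    rw [div_le_one (by exact_mod_cast hj)]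
    exact_mod_cast hj
  have h2 : 0 ≤ 1 / (n : ℝ) := by positivity
  linarith

/-- the pointwise estimate -/
theorem ptw (D : DA K Λ B A R₁ H Q P g b u) (θ : ℝ) {j : ℕ} (hj : 1 ≤ j)
    (hsm : ∀ i, j < i → (1 / 2) ^ i * (P (pt (rr i) θ)).re ≤ cc i) :
    ‖H (pt 1 θ)‖ ≤ ‖H (pt (rr j) θ)‖ + ‖g (pt 1 θ) - g (pt (rr j) θ)‖ + (4 * B + 4 + 2 * A) := by
  have h0 := rr_nonneg j
  have h1 := rr_lt j
  have hmj : pt (rr j) θ ∈ ball (0 : ℂ) 1 := by rw [mem_ball_zero_iff, norm_pt _ θ h0]; exact h1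
  have hsub : ball (0 : ℂ) 1 ⊆ ball 0 R₁ := ball_subset_ball D.R.le
  obtain ⟨-, -, hs3⟩ := shell D θ hj
  -- difference of FF
  have hF : ∀ n, j + 1 ≤ n → ‖FF H g b u θ (rr n) - FF H g b u θ (rr j)‖ ≤ 4 * B + 4 := by
    intro n hn
    have a1 := tele D θ (by omega : 1 ≤ j + 1) n hn
    have a2 : 2 * (1 / 2) ^ (j + 1) * ‖Q (pt (rr (j + 1)) θ)‖ ≤ 2 * B := by
      have := D.bQ (pt (rr (j + 1)) θ) (by
        rw [mem_ball_zero_iff, norm_pt _ θ (rr_nonneg _)]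
        exact rr_lt _)
      rw [norm_pt _ θ (rr_nonneg _), one_sub_rr] at this
      linarith
    have a3 : ∑ i ∈ Finset.Ico (j + 1) n, (1 / 2) ^ i * (P (pt (rr i) θ)).re ≤ 1 := by
      have b2 : ∑ i ∈ Finset.Ico (j + 1) n, (1 / 2) ^ i * (P (pt (rr i) θ)).re ≤
          ∑ i ∈ Finset.Ico (j + 1) n, cc i := by
        apply Finset.sum_le_sum
        intro i hi
        exact hsm i (Finset.mem_Ico.1 hi).1
      exact b2.trans (sum_cc (j + 1) n (by omega) hn)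
    have a4 : 0 ≤ 2 * (1 / 2) ^ n * ‖Q (pt (rr n) θ)‖ := by positivity
    have a5 : ‖FF H g b u θ (rr n) - FF H g b u θ (rr j)‖ ≤
        ‖FF H g b u θ (rr n) - FF H g b u θ (rr (j + 1))‖ +
        ‖FF H g b u θ (rr (j + 1)) - FF H g b u θ (rr j)‖ := norm_sub_le_norm_sub_add_norm_sub _ _ _
    linarith
  have hcont : ContinuousAt (FF H g b u θ) 1 := (hasDerivAt_FF D θ one_pos le_rfl).continuousAt
  have hlim : Tendsto (fun n => ‖FF H g b u θ (rr n) - FF H g b u θ (rr j)‖) atTop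
      (𝓝 ‖FF H g b u θ 1 - FF H g b u θ (rr j)‖) :=
    ((hcont.tendsto.comp tendsto_rr).sub_const _).norm
  have hF1 : ‖FF H g b u θ 1 - FF H g b u θ (rr j)‖ ≤ 4 * B + 4 := by
    apply le_of_tendsto hlim
    filter_upwards [eventually_ge_atTop (j + 1)] with n hn
    exact hF n hn
  have e : H (pt 1 θ) = H (pt (rr j) θ) + (FF H g b u θ 1 - FF H g b u θ (rr j)) +
      u * (g (pt 1 θ) - g (pt (rr j) θ)) + (b (pt 1 θ) - b (pt (rr j) θ)) := by
    unfold FF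
    ring
  rw [e]
  have n1 := norm_add_le (H (pt (rr j) θ) + (FF H g b u θ 1 - FF H g b u θ (rr j)) +
      u * (g (pt 1 θ) - g (pt (rr j) θ))) (b (pt 1 θ) - b (pt (rr j) θ))
  have n2 := norm_add_le (H (pt (rr j) θ) + (FF H g b u θ 1 - FF H g b u θ (rr j)))
      (u * (g (pt 1 θ) - g (pt (rr j) θ)))
  have n3 := norm_add_le (H (pt (rr j) θ)) (FF H g b u θ 1 - FF H g b u θ (rr j))
  have n4 := norm_sub_le (b (pt 1 θ)) (b (pt (rr j) θ))
  have n5 := D.bb _ (mem_R D zero_le_one le_rfl θ)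
  have n6 := D.bb _ (hsub hmj)
  have n8 : ‖u * (g (pt 1 θ) - g (pt (rr j) θ))‖ ≤ ‖g (pt 1 θ) - g (pt (rr j) θ)‖ := by
    rw [norm_mul]
    have := mul_le_mul_of_nonneg_right D.u1 (norm_nonneg (g (pt 1 θ) - g (pt (rr j) θ)))
    linarith
  linarith

end

/-- a crude form of Young's inequality -/
theorem young (U V : ℝ) {s : ℝ} (hs : 0 < s) :
    Real.exp (U + V) ≤ Real.exp ((1 + 1 / s) * U) + Real.exp ((1 + s) * V) := by
  rcases le_total V (U / s) with h | h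
  · have h1 : U + V ≤ (1 + 1 / s) * U := by
      have : (1 + 1 / s) * U = U + U / s := by ring
      linarith
    have := Real.exp_le_exp.2 h1
    linarith [Real.exp_pos ((1 + s) * V)]
  · have h1 : U + V ≤ (1 + s) * V := by
      rw [div_le_iff₀ hs] at h
      linarith
    have := Real.exp_le_exp.2 h1
    linarith [Real.exp_pos ((1 + 1 / s) * U)]

section

variable {K Λ B A R₁ : ℝ} {H Q P g b : ℂ → ℂ} {u : ℂ}

theorem cont_pt {f : ℂ → ℂ} {R₁ : ℝ} (hR₁ : 1 < R₁) (hf : DifferentiableOn ℂ f (ball 0 R₁)) {r : ℝ}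
    (hr0 : 0 ≤ r) (hr1 : r ≤ 1) : Continuous fun θ : ℝ => f (pt r θ) := by
  apply hf.continuousOn.comp_continuous (continuous_pt r)
  intro θ
  rw [mem_ball_zero_iff, norm_pt r θ hr0]
  exact hr1.trans_lt hR₁

/-- mean value property of the real part -/
theorem mean_re {f : ℂ → ℂ} {R₁ : ℝ} (hR₁ : 1 < R₁) (hf : DifferentiableOn ℂ f (ball 0 R₁)) {r : ℝ}
    (hr0 : 0 ≤ r) (hr1 : r ≤ 1) :
    ∫ θ in (0 : ℝ)..(2 * Real.pi), (f (pt r θ)).re = 2 * Real.pi * (f 0).re := by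
  have hpi := Real.pi_pos
  have hcl : DiffContOnCl ℂ f (ball 0 |r|) := by
    rw [abs_of_nonneg hr0]
    exact hf.diffContOnCl_ball (closedBall_subset_ball (hr1.trans_lt hR₁))
  have h1 := hcl.circleAverage
  rw [Real.circleAverage_def] at h1
  have h2 := reCLM.intervalIntegral_comp_comm (a := (0 : ℝ)) (b := 2 * Real.pi) (μ := volume)
    (f := fun θ => f (circleMap 0 r θ)) ((cont_pt hR₁ hf hr0 hr1).intervalIntegrable _ _)
  have h3 := congrArg Complex.re h1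
  rw [Complex.smul_re, smul_eq_mul] at h3
  have h4 : ∫ θ in (0 : ℝ)..(2 * Real.pi), (f (pt r θ)).re =
    (∫ θ in (0 : ℝ)..(2 * Real.pi), f (circleMap 0 r θ)).re := h2
  rw [h4, ← h3]
  field_simp

theorem exists_J (D : DA K Λ B A R₁ H Q P g b u) :
    ∃ J : ℕ, ∀ i, J ≤ i → ∀ θ : ℝ, (1 / 2) ^ i * (P (pt (rr i) θ)).re ≤ cc i := by
  have hcb : ContinuousOn P (closedBall 0 1) :=
    D.dP.continuousOn.mono (closedBall_subset_ball D.R)
  obtain ⟨B, hB⟩ := (isCompact_closedBall (0 : ℂ) 1).exists_bound_of_continuousOn hcb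
  have h1 : Tendsto (fun n : ℕ => |B| * ((n : ℝ) ^ 2 * (1 / 2) ^ n + (n : ℝ) ^ 1 * (1 / 2) ^ n)) atTop
      (𝓝 (|B| * (0 + 0))) := by
    apply Tendsto.const_mul
    apply Tendsto.add
    · exact tendsto_pow_const_mul_const_pow_of_abs_lt_one 2 (by norm_num [abs_lt])
    · exact tendsto_pow_const_mul_const_pow_of_abs_lt_one 1 (by norm_num [abs_lt])
  rw [add_zero, mul_zero] at h1
  have h2 := (h1.eventually_lt_const one_pos).and (eventually_ge_atTop 1)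
  obtain ⟨J, hJ⟩ := eventually_atTop.1 h2
  refine ⟨J, fun i hi θ => ?_⟩
  obtain ⟨h3, h4⟩ := hJ i hi
  have h5 : (P (pt (rr i) θ)).re ≤ |B| := by
    refine (re_le_norm _).trans ((hB _ ?_).trans (le_abs_self B))
    rw [mem_closedBall_zero_iff, norm_pt _ θ (rr_nonneg i)]
    exact (rr_lt i).le
  have hi0 : (0 : ℝ) < i := by exact_mod_cast h4
  unfold cc
  rw [le_div_iff₀ (by positivity)]
  have hp : (0 : ℝ) < (1 / 2) ^ i := by positivity
  calc (1 / 2) ^ i * (P (pt (rr i) θ)).re * ((i : ℝ) * (i + 1))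
      ≤ (1 / 2) ^ i * |B| * ((i : ℝ) * (i + 1)) := by gcongr
    _ = |B| * ((i : ℝ) ^ 2 * (1 / 2) ^ i + (i : ℝ) ^ 1 * (1 / 2) ^ i) := by ring
    _ ≤ 1 := h3.le

/-- **The core theorem** -/
theorem core (Λ B A a₁ s y : ℝ) (hΛ : 1 ≤ Λ) (hB : 0 ≤ B) (hA : 0 ≤ A) (ha₁ : 0 ≤ a₁) (hs : 0 < s)
    (hy : 0 ≤ y) (h2 : (1 + s) * a₁ * Λ * (1 + 2 * y) < 1) (h3 : a₁ * Λ ^ 2 < 1) : ∃ C : ℝ, 0 ≤ C ∧
    ∀ (K R₁ L : ℝ) (H Q P g b : ℂ → ℂ) (u : ℂ) (j₀ : ℕ), DA K Λ B A R₁ H Q P g b u → 0 ≤ K →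
      0 < L → 1 ≤ j₀ → j₀ * Real.log 2 ≤ 2 * y * L → (∀ θ, ‖H (pt 1 θ)‖ ≤ Λ * L) →
      ∫ θ in (0 : ℝ)..(2 * Real.pi), Real.exp (a₁ * ‖H (pt 1 θ)‖ ^ 2 / L) ≤
        (∫ θ in (0 : ℝ)..(2 * Real.pi),
          Real.exp ((1 + 1 / s) * (a₁ * ‖H (pt (rr j₀) θ)‖ ^ 2 / L))) +
        C * (1 + K * Real.exp (-(1 - a₁ * Λ ^ 2) * Real.log 2 / 2) ^ j₀) := by
  have hpi := Real.pi_pos
  have hlog2 : 0 < Real.log 2 := Real.log_pos (by norm_num)
  have hΛ0 : 0 < Λ := by linarith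
  obtain ⟨a₂, ha₂⟩ : ∃ a₂, a₂ = (1 + s) * (a₁ * Λ * (1 + 2 * y)) := ⟨_, rfl⟩
  have ha₂0 : 0 ≤ a₂ := by rw [ha₂]; positivity
  have ha₂1 : a₂ < 1 := by rw [ha₂]; linarith
  obtain ⟨a₃, ha₃⟩ : ∃ a₃, a₃ = a₁ * Λ := ⟨_, rfl⟩
  have ha₃0 : 0 ≤ a₃ := by rw [ha₃]; positivity
  have ha₃1 : a₃ < 1 := by
    have : a₁ * Λ ≤ a₁ * Λ ^ 2 := by
      apply mul_le_mul_of_nonneg_left _ ha₁
      nlinarith
    linarith
  obtain ⟨C₀, hC₀⟩ : ∃ C₀, C₀ = 4 * B + 4 + 2 * A := ⟨_, rfl⟩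
  have hC₀0 : 0 ≤ C₀ := by rw [hC₀]; positivity
  obtain ⟨S₂, hS₂⟩ : ∃ S, S = Real.exp (a₂ * Real.pi) *
    (81 * Real.pi / Real.cos (a₂ * (Real.pi / 2)) ^ 2) := ⟨_, rfl⟩
  obtain ⟨S₃, hS₃⟩ : ∃ S, S = Real.exp (a₃ * Real.pi) *
    (81 * Real.pi / Real.cos (a₃ * (Real.pi / 2)) ^ 2) := ⟨_, rfl⟩
  have hS₂0 : 0 < S₂ := by
    have := cos_pos' ha₂0 ha₂1
    rw [hS₂]
    positivity
  have hS₃0 : 0 < S₃ := by
    have := cos_pos' ha₃0 ha₃1
    rw [hS₃]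
    positivity
  obtain ⟨v, hv⟩ : ∃ v, v = Real.exp (-(1 - a₁ * Λ ^ 2) * Real.log 2 / 2) := ⟨_, rfl⟩
  have hv0 : 0 < v := hv ▸ Real.exp_pos _
  have hv1 : v < 1 := by
    rw [hv, Real.exp_lt_one_iff]
    have : 0 < (1 - a₁ * Λ ^ 2) * Real.log 2 := mul_pos (by linarith) hlog2
    linarith
  rw [← hv]
  have hvv : Real.exp (a₃ * (Λ * Real.log 2)) * (1 / 2) = v * v := by
    have e1 : (1 : ℝ) / 2 = Real.exp (-Real.log 2) := by
      rw [Real.exp_neg, Real.exp_log (by norm_num)]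
      norm_num
    rw [e1, hv, ← Real.exp_add, ← Real.exp_add]
    congr 1
    rw [ha₃]
    ring
  have hsum : Summable fun j : ℕ => ((j : ℝ) * (j + 1)) * v ^ j := by
    have h1 := summable_pow_mul_geometric_of_norm_lt_one 2 (r := v)
        (by rw [Real.norm_of_nonneg hv0.le]; exact hv1)
    have h2 := summable_pow_mul_geometric_of_norm_lt_one 1 (r := v)
        (by rw [Real.norm_of_nonneg hv0.le]; exact hv1)
    refine (h1.add h2).congr fun j => ?_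
    ring
  obtain ⟨Gs, hGs⟩ : ∃ Gs, Gs = ∑' j : ℕ, ((j : ℝ) * (j + 1)) * v ^ j := ⟨_, rfl⟩
  have hGs0 : 0 ≤ Gs := by rw [hGs]; exact tsum_nonneg fun j => by positivity
  refine ⟨Real.exp (a₂ * C₀) * (S₂ * (2 * Real.pi)) +
    Real.exp (a₃ * C₀) * S₃ * (2 * Real.pi) * Gs, by positivity, ?_⟩
  intro K R₁ L H Q P g b u j₀ D hK hL hj₀ hj₀L hHL
  obtain ⟨J, hJ⟩ := exists_J D
  have hgc : ∀ r : ℝ, 0 ≤ r → r ≤ 1 → Continuous fun θ : ℝ => g (pt r θ) :=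
    fun r h0 h1 => cont_pt D.R D.dg h0 h1
  have hHc : ∀ r : ℝ, 0 ≤ r → r ≤ 1 → Continuous fun θ : ℝ => H (pt r θ) :=
    fun r h0 h1 => cont_pt D.R D.dH h0 h1
  have hPc : ∀ r : ℝ, 0 ≤ r → r ≤ 1 → Continuous fun θ : ℝ => (P (pt r θ)).re :=
    fun r h0 h1 => continuous_re.comp (cont_pt D.R D.dP h0 h1)
  have hexpc : ∀ (c : ℝ) (j : ℕ), Continuous fun θ : ℝ =>
      Real.exp (c * ‖g (pt 1 θ) - g (pt (rr j) θ)‖) := by
    intro c j
    exact Real.continuous_exp.comp (continuous_const.mul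
      ((hgc 1 zero_le_one le_rfl).sub (hgc _ (rr_nonneg j) (rr_lt j).le)).norm)
  set T₁ : ℝ → ℝ := fun θ => Real.exp ((1 + 1 / s) * (a₁ * ‖H (pt (rr j₀) θ)‖ ^ 2 / L)) with hT₁
  have hT₁c : Continuous T₁ := by
    refine Real.continuous_exp.comp (continuous_const.mul ?_)
    exact (continuous_const.mul ((hHc _ (rr_nonneg j₀) (rr_lt j₀).le).norm.pow 2)).div_const L
  set T₂ : ℝ → ℝ := fun θ => Real.exp (a₂ * C₀) *
    Real.exp (a₂ * ‖g (pt 1 θ) - g (pt (rr j₀) θ)‖) with hT₂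
  have hT₂c : Continuous T₂ := continuous_const.mul (hexpc _ _)
  set T : ℕ → ℝ → ℝ := fun j θ => Real.exp (a₃ * C₀) * Real.exp (a₃ * (Λ * (j * Real.log 2))) *
    Real.exp (a₃ * ‖g (pt 1 θ) - g (pt (rr j) θ)‖) with hT
  have hT0 : ∀ j θ, 0 ≤ T j θ := fun j θ => by positivity
  have hTc : ∀ j, Continuous (T j) := fun j => continuous_const.mul (hexpc _ j)
  set M : ℕ → ℝ → ℝ := fun i θ => (1 / 2) ^ i * (P (pt (rr i) θ)).re with hM
  have hMc : ∀ j, Continuous (M j) := fun j => continuous_const.mul (hPc _ (rr_nonneg j) (rr_lt j).le)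
  have hM0 : ∀ j θ, 0 ≤ M j θ := by
    intro j θ
    exact mul_nonneg (by positivity) (D.pP _ (mem_R D (rr_nonneg j) (rr_lt j).le θ)).le
  -- pointwise
  have hpt : ∀ θ, Real.exp (a₁ * ‖H (pt 1 θ)‖ ^ 2 / L) ≤
      (T₁ θ + T₂ θ) + ∑ j ∈ Finset.Ico j₀ J, (M j θ / cc j) * T j θ := by
    intro θ
    have hnn : ∀ j ∈ Finset.Ico j₀ J, 0 ≤ (M j θ / cc j) * T j θ := by
      intro j hj
      exact mul_nonneg (div_nonneg (hM0 j θ)
        (cc_pos (hj₀.trans (Finset.mem_Ico.1 hj).1)).le) (hT0 j θ)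
    obtain ⟨Z, hZ⟩ : ∃ Z, Z = ‖H (pt 1 θ)‖ := ⟨_, rfl⟩
    have hZ0 : 0 ≤ Z := hZ ▸ norm_nonneg _
    have hZL : Z ≤ Λ * L := hZ ▸ hHL θ
    have hmr : ∀ j, pt (rr j) θ ∈ ball (0 : ℂ) 1 := by
      intro j
      rw [mem_ball_zero_iff, norm_pt _ θ (rr_nonneg j)]
      exact rr_lt j
    have hSj : ∀ j, ‖H (pt (rr j) θ)‖ ≤ Λ * (j * Real.log 2) := by
      intro j
      have := D.bH _ (hmr j)
      rw [norm_pt _ θ (rr_nonneg j), neg_log_rr] at this
      exact this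
    rw [← hZ]
    by_cases hex : ∃ j, j ≤ J ∧ (j₀ ≤ j ∧ cc j < M j θ)
    · classical
      obtain ⟨j₁, hj₁, hp₁⟩ := hex
      set j := Nat.findGreatest (fun j => j₀ ≤ j ∧ cc j < M j θ) J with hjdef
      have hspec : j₀ ≤ j ∧ cc j < M j θ :=
        Nat.findGreatest_spec (P := fun j => j₀ ≤ j ∧ cc j < M j θ) hj₁ hp₁
      have hgr : ∀ i, j < i → M i θ ≤ cc i := by
        intro i hi
        rcases le_or_gt i J with h | h
        · have := Nat.findGreatest_is_greatest (P := fun j => j₀ ≤ j ∧ cc j < M j θ) hi h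
          by_contra hcon
          exact this ⟨by omega, not_le.1 hcon⟩
        · exact hJ i h.le θ
      have hjJ : j < J := by
        by_contra hcon
        exact absurd (hJ j (not_lt.1 hcon) θ) (not_le.2 hspec.2)
      have hj1 : 1 ≤ j := hj₀.trans hspec.1
      have h1 : Real.exp (a₁ * Z ^ 2 / L) ≤ T j θ := by
        simp only [hT]
        rw [← Real.exp_add, ← Real.exp_add]
        apply Real.exp_le_exp.2
        have e1 : a₁ * Z ^ 2 / L ≤ a₃ * Z := by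
          rw [div_le_iff₀ hL, ha₃]
          have : Z * Z ≤ Z * (Λ * L) := mul_le_mul_of_nonneg_left hZL hZ0
          nlinarith
        have e2 := ptw D θ hj1 hgr
        rw [← hZ, ← hC₀] at e2
        have e3 := hSj j
        have e4 : a₃ * Z ≤ a₃ * (Λ * (j * Real.log 2) + ‖g (pt 1 θ) - g (pt (rr j) θ)‖ + C₀) :=
          mul_le_mul_of_nonneg_left (by linarith) ha₃0
        linarith
      have h2 : T j θ ≤ (M j θ / cc j) * T j θ := by
        have : 1 ≤ M j θ / cc j := by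
          rw [one_le_div (cc_pos hj1)]
          exact hspec.2.le
        nlinarith [hT0 j θ]
      have h3 : (M j θ / cc j) * T j θ ≤ ∑ j ∈ Finset.Ico j₀ J, (M j θ / cc j) * T j θ :=
        Finset.single_le_sum (f := fun j => (M j θ / cc j) * T j θ) hnn
          (Finset.mem_Ico.2 ⟨hspec.1, hjJ⟩)
      have h4 : 0 < T₁ θ := Real.exp_pos _
      have h5 : 0 ≤ T₂ θ := by positivity
      linarith
    · push Not at hex
      have hgr : ∀ i, j₀ < i → M i θ ≤ cc i := by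
        intro i hi
        rcases le_or_gt i J with h | h
        · exact hex i h (by omega)
        · exact hJ i h.le θ
      have e2 := ptw D θ hj₀ hgr
      rw [← hZ, ← hC₀] at e2
      obtain ⟨S, hSd⟩ : ∃ S, S = ‖H (pt (rr j₀) θ)‖ := ⟨_, rfl⟩
      obtain ⟨W, hW⟩ : ∃ W, W = ‖g (pt 1 θ) - g (pt (rr j₀) θ)‖ + C₀ := ⟨_, rfl⟩
      have hS0 : 0 ≤ S := hSd ▸ norm_nonneg _
      have hW0 : 0 ≤ W := by rw [hW]; positivity
      have hSL : S ≤ Λ * (2 * y * L) := by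
        have := hSj j₀
        rw [← hSd] at this
        exact this.trans (mul_le_mul_of_nonneg_left hj₀L hΛ0.le)
      have e3 : Z ≤ S + W := by
        rw [hSd, hW]
        linarith
      have e4 : Z ^ 2 ≤ S ^ 2 + W * (Λ * (1 + 2 * y) * L) := by
        rcases le_total Z S with h | h
        · have : Z ^ 2 ≤ S ^ 2 := pow_le_pow_left₀ hZ0 h 2
          have : 0 ≤ W * (Λ * (1 + 2 * y) * L) := by positivity
          linarith
        · have h6 : (Z - S) * (Z + S) ≤ W * (Λ * (1 + 2 * y) * L) := by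
            apply mul_le_mul (by linarith) (by linarith) (by linarith) hW0
          have h7 : (Z - S) * (Z + S) = Z ^ 2 - S ^ 2 := by ring
          linarith
      have e5 : a₁ * Z ^ 2 / L ≤ a₁ * S ^ 2 / L + a₁ * Λ * (1 + 2 * y) * W := by
        rw [div_add' _ _ _ hL.ne', div_le_div_iff_of_pos_right hL]
        have := mul_le_mul_of_nonneg_left e4 ha₁
        linarith
      have e6 := young (a₁ * S ^ 2 / L) (a₁ * Λ * (1 + 2 * y) * W) hs
      have e7 : Real.exp ((1 + 1 / s) * (a₁ * S ^ 2 / L)) = T₁ θ := by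
        simp only [hT₁]
        rw [hSd]
      have e8 : Real.exp ((1 + s) * (a₁ * Λ * (1 + 2 * y) * W)) = T₂ θ := by
        simp only [hT₂]
        rw [← Real.exp_add, hW, ha₂]
        congr 1
        ring
      rw [e7, e8] at e6
      have e9 := Finset.sum_nonneg hnn
      have e10 := (Real.exp_le_exp.2 e5).trans e6
      linarith
  have hMTc : ∀ j, Continuous fun θ => M j θ / cc j * T j θ :=
    fun j => ((hMc j).div_const _).mul (hTc j)
  have hsumc : Continuous fun θ => ∑ j ∈ Finset.Ico j₀ J, M j θ / cc j * T j θ :=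
    continuous_finsetSum _ fun j _ => hMTc j
  have hI1 : ∫ θ in (0 : ℝ)..(2 * Real.pi), Real.exp (a₁ * ‖H (pt 1 θ)‖ ^ 2 / L) ≤
      ∫ θ in (0 : ℝ)..(2 * Real.pi),
        ((T₁ θ + T₂ θ) + ∑ j ∈ Finset.Ico j₀ J, (M j θ / cc j) * T j θ) := by
    apply intervalIntegral.integral_mono_on (by positivity)
    · apply Continuous.intervalIntegrable
      exact Real.continuous_exp.comp
        ((continuous_const.mul ((hHc 1 zero_le_one le_rfl).norm.pow 2)).div_const L)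
    · exact ((hT₁c.add hT₂c).add hsumc).intervalIntegrable _ _
    · intro θ _
      exact hpt θ
  have hterm : ∀ j ∈ Finset.Ico j₀ J, ∫ θ in (0 : ℝ)..(2 * Real.pi), (M j θ / cc j) * T j θ ≤
      Real.exp (a₃ * C₀) * S₃ * (2 * Real.pi * K) * v ^ j₀ * (((j : ℝ) * (j + 1)) * v ^ j) := by
    intro j hj
    have hj1 : 1 ≤ j := hj₀.trans (Finset.mem_Ico.1 hj).1
    have hj0 : (0 : ℝ) < j := by exact_mod_cast hj1
    have hsub : ball (0 : ℂ) 1 ⊆ ball 0 R₁ := ball_subset_ball D.R.le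
    have h1 := strip D.R D.dg D.sg ha₃0 ha₃1 (rr_nonneg j) (rr_lt j)
      (W := fun θ => (P (pt (rr j) θ)).re) (hPc _ (rr_nonneg j) (rr_lt j).le)
      (fun θ => (D.pP _ (mem_R D (rr_nonneg j) (rr_lt j).le θ)).le)
      (by
        intro θ
        simp only [pt_periodic (rr j) θ])
      (fun θ φ h => slow (D.dP.mono hsub) (fun x hx => D.pP x (hsub hx)) (rr_nonneg j) (rr_lt j) h)
    rw [← hS₃, mean_re D.R D.dP (rr_nonneg j) (rr_lt j).le] at h1
    have h2 : (P 0).re ≤ K := (re_le_norm _).trans D.P0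
    have h3 : ∫ θ in (0 : ℝ)..(2 * Real.pi), (M j θ / cc j) * T j θ =
        (Real.exp (a₃ * C₀) * (((j : ℝ) * (j + 1)) * (v ^ j * v ^ j))) *
          ∫ θ in (0 : ℝ)..(2 * Real.pi),
          (P (pt (rr j) θ)).re * Real.exp (a₃ * ‖g (pt 1 θ) - g (pt (rr j) θ)‖) := by
      rw [← intervalIntegral.integral_const_mul]
      refine intervalIntegral.integral_congr fun θ _ => ?_
      simp only [hM, hT, cc]
      have e1 : Real.exp (a₃ * (Λ * (j * Real.log 2))) * (1 / 2) ^ j = v ^ j * v ^ j := by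
        rw [← mul_pow, ← hvv, mul_pow, ← Real.exp_nat_mul]
        congr 2
        ring
      rw [← e1]
      field_simp
    rw [h3]
    have h4 : S₃ * (2 * Real.pi * (P 0).re) ≤ S₃ * (2 * Real.pi * K) := by gcongr
    have h5 := h1.trans h4
    have h6 : 0 ≤ Real.exp (a₃ * C₀) * (((j : ℝ) * (j + 1)) * (v ^ j * v ^ j)) := by positivity
    have h7 : v ^ j ≤ v ^ j₀ := pow_le_pow_of_le_one hv0.le hv1.le (Finset.mem_Ico.1 hj).1
    refine (mul_le_mul_of_nonneg_left h5 h6).trans ?_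
    calc Real.exp (a₃ * C₀) * (((j : ℝ) * (j + 1)) * (v ^ j * v ^ j)) * (S₃ * (2 * Real.pi * K))
        = Real.exp (a₃ * C₀) * S₃ * (2 * Real.pi * K) * v ^ j * (((j : ℝ) * (j + 1)) * v ^ j) := by ring
      _ ≤ _ := by gcongr
  have hI2 : ∫ θ in (0 : ℝ)..(2 * Real.pi), T₂ θ ≤
      Real.exp (a₂ * C₀) * (S₂ * (2 * Real.pi)) := by
    have h1 := strip D.R D.dg D.sg ha₂0 ha₂1 (rr_nonneg j₀) (rr_lt j₀)
      (W := fun _ => 1) continuous_const (fun θ => zero_le_one) (fun θ => rfl)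
      (fun θ φ h => by norm_num)
    rw [← hS₂] at h1
    simp only [one_mul, intervalIntegral.integral_const, sub_zero, smul_eq_mul, mul_one] at h1
    simp only [hT₂]
    rw [intervalIntegral.integral_const_mul]
    exact mul_le_mul_of_nonneg_left h1 (Real.exp_pos _).le
  refine hI1.trans ?_
  have hT12 : Continuous fun θ => T₁ θ + T₂ θ := hT₁c.add hT₂c
  have hsp1 := intervalIntegral.integral_add (μ := volume) (hT12.intervalIntegrable 0 (2 * Real.pi))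
    (hsumc.intervalIntegrable 0 (2 * Real.pi))
  have hsp2 := intervalIntegral.integral_add (μ := volume) (hT₁c.intervalIntegrable 0 (2 * Real.pi))
    (hT₂c.intervalIntegrable 0 (2 * Real.pi))
  have hsp3 : ∫ θ in (0 : ℝ)..(2 * Real.pi), ∑ j ∈ Finset.Ico j₀ J, M j θ / cc j * T j θ =
      ∑ j ∈ Finset.Ico j₀ J, ∫ θ in (0 : ℝ)..(2 * Real.pi), M j θ / cc j * T j θ :=
    intervalIntegral.integral_finsetSum fun j _ => (hMTc j).intervalIntegrable _ _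
  rw [hsp1, hsp2, hsp3]
  have hS := Finset.sum_le_sum hterm
  rw [← Finset.mul_sum] at hS
  have hS2 : ∑ j ∈ Finset.Ico j₀ J, ((j : ℝ) * (j + 1)) * v ^ j ≤ Gs := by
    rw [hGs]
    exact hsum.sum_le_tsum _ (fun j _ => by positivity)
  have hS3 : Real.exp (a₃ * C₀) * S₃ * (2 * Real.pi * K) * v ^ j₀ *
      ∑ j ∈ Finset.Ico j₀ J, ((j : ℝ) * (j + 1)) * v ^ j ≤
      Real.exp (a₃ * C₀) * S₃ * (2 * Real.pi * K) * v ^ j₀ * Gs :=
    mul_le_mul_of_nonneg_left hS2 (by positivity)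
  have hfin : Real.exp (a₂ * C₀) * (S₂ * (2 * Real.pi)) +
      Real.exp (a₃ * C₀) * S₃ * (2 * Real.pi * K) * v ^ j₀ * Gs ≤
      (Real.exp (a₂ * C₀) * (S₂ * (2 * Real.pi)) +
        Real.exp (a₃ * C₀) * S₃ * (2 * Real.pi) * Gs) * (1 + K * v ^ j₀) := by
    have k1 : 0 ≤ Real.exp (a₂ * C₀) * (S₂ * (2 * Real.pi)) * (K * v ^ j₀) := by positivity
    have k2 : 0 ≤ Real.exp (a₃ * C₀) * S₃ * (2 * Real.pi) * Gs := by positivity
    have k3 : (Real.exp (a₂ * C₀) * (S₂ * (2 * Real.pi)) +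
        Real.exp (a₃ * C₀) * S₃ * (2 * Real.pi) * Gs) * (1 + K * v ^ j₀) =
        Real.exp (a₂ * C₀) * (S₂ * (2 * Real.pi)) +
        Real.exp (a₃ * C₀) * S₃ * (2 * Real.pi * K) * v ^ j₀ * Gs +
        Real.exp (a₂ * C₀) * (S₂ * (2 * Real.pi)) * (K * v ^ j₀) +
        Real.exp (a₃ * C₀) * S₃ * (2 * Real.pi) * Gs := by ring
    rw [k3]
    linarith
  have hI3 := hS.trans hS3
  linarith

end

end Pool.Agent.W677.Mar
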