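import Pool.Agent.H64.G.R_seed8.W677.Mar5
import Pool.Agent.H64.G.R_seed8.W677.MarM
import Pool.Agent.H64.G.R_seed8.W677.MarB

set_option autoImplicit false

/-! # The main theorem in disc coordinates -/

namespace Pool.Agent.W677.Mar

open Complex Metric Set Filter Topology MeasureTheory

/-- the class in disc coordinates -/
structure DC (K A ε : ℝ) (H Q P g b e : ℂ → ℂ) (u : ℂ) : Prop where
  dQ : DifferentiableOn ℂ Q (ball 0 1)
  dP : DifferentiableOn ℂ P (ball 0 1)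
  dg : DifferentiableOn ℂ g (ball 0 1)
  db : DifferentiableOn ℂ b (ball 0 1)
  de : DifferentiableOn ℂ e (ball 0 1)
  pP : ∀ w ∈ ball (0 : ℂ) 1, 0 < (P w).re
  P0 : ‖P 0‖ ≤ K
  oQ : ∀ w ∈ ball (0 : ℂ) 1, ∀ x, ‖x - w‖ ≤ (1 - ‖w‖) / 2 → ‖Q x - Q w‖ ≤ 2 * (P w).re
  u1 : ‖u‖ ≤ 1
  sg : ∀ w ∈ ball (0 : ℂ) 1, |(g w).im| ≤ Real.pi / 2
  bb : ∀ w ∈ ball (0 : ℂ) 1, ‖b w‖ ≤ A
  e0 : e 0 = 0
  be : ∀ w ∈ ball (0 : ℂ) 1, ‖deriv e w‖ * (1 - ‖w‖) ≤ ε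
  eq : ∀ w ∈ ball (0 : ℂ) 1,
    w * deriv H w = -Q w + w * (u * deriv g w + deriv b w + deriv e w)

/-- growth of Bloch functions -/
theorem bloch_growth {e : ℂ → ℂ} {ε : ℝ} (hd : DifferentiableOn ℂ e (ball 0 1)) (h0 : e 0 = 0)
    (hb : ∀ w ∈ ball (0 : ℂ) 1, ‖deriv e w‖ * (1 - ‖w‖) ≤ ε) {w : ℂ} (hw : w ∈ ball (0 : ℂ) 1) :
    ‖e w‖ ≤ ε * -Real.log (1 - ‖w‖) := by
  have hn : ‖w‖ < 1 := mem_ball_zero_iff.1 hw
  by_cases hw0 : w = 0
  · rw [hw0, h0]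
    simp
  have hp : 0 < ‖w‖ := norm_pos_iff.2 hw0
  obtain ⟨v, hv⟩ : ∃ v : ℂ, v = w / ‖w‖ := ⟨_, rfl⟩
  have hv1 : ‖v‖ = 1 := by
    rw [hv, norm_div, Complex.norm_real, norm_norm, div_self hp.ne']
  have hvw : ((‖w‖ : ℝ) : ℂ) * v = w := by
    rw [hv]
    have : ((‖w‖ : ℝ) : ℂ) ≠ 0 := by exact_mod_cast hp.ne'
    field_simp
  have hmem : ∀ x ∈ Icc (0 : ℝ) ‖w‖, (x : ℂ) * v ∈ ball (0 : ℂ) 1 := by
    intro x hx
    rw [mem_ball_zero_iff, norm_mul, hv1, mul_one, Complex.norm_real, Real.norm_of_nonneg hx.1]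
    linarith [hx.2]
  have hder : ∀ x ∈ Icc (0 : ℝ) ‖w‖, HasDerivAt (fun x : ℝ => e ((x : ℂ) * v))
      (deriv e ((x : ℂ) * v) * v) x := by
    intro x hx
    have h1 := (hd.differentiableAt (isOpen_ball.mem_nhds (hmem x hx))).hasDerivAt
    have h2 : HasDerivAt (fun x : ℝ => (x : ℂ) * v) v x := by
      simpa using (Complex.ofRealCLM.hasDerivAt (x := x)).mul_const v
    exact h1.comp x h2
  have hB : ∀ x : ℝ, x < 1 → HasDerivAt (fun x => ε * lam x) (ε * (1 / (1 - x))) x :=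
    fun x hx => (lam_deriv hx).const_mul ε
  have key := image_norm_le_of_norm_deriv_right_le_deriv_boundary'
    (f := fun x : ℝ => e ((x : ℂ) * v)) (f' := fun x : ℝ => deriv e ((x : ℂ) * v) * v)
    (a := 0) (b := ‖w‖) (B := fun x => ε * lam x) (B' := fun x => ε * (1 / (1 - x)))
    (fun x hx => (hder x hx).continuousAt.continuousWithinAt)
    (fun x hx => (hder x ⟨hx.1, hx.2.le⟩).hasDerivWithinAt)
    (by simp [h0, lam_zero])
    (fun x hx => (hB x (by linarith [hx.2])).continuousAt.continuousWithinAt)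
    (fun x hx => (hB x (by linarith [hx.2])).hasDerivWithinAt)
    (by
      intro x hx
      have h1 := hb _ (hmem x ⟨hx.1, hx.2.le⟩)
      rw [norm_mul, hv1, mul_one, Complex.norm_real, Real.norm_of_nonneg hx.1] at h1
      rw [norm_mul, hv1, mul_one, mul_one_div, le_div_iff₀ (by linarith [hx.2])]
      exact h1)
    (⟨hp.le, le_rfl⟩ : ‖w‖ ∈ Icc (0 : ℝ) ‖w‖)
  simp only [hvw] at key
  exact key

/-- the parameters -/
theorem par {a t : ℝ} (ha0 : 0 < a) (ha : a < 1) (ht : t = (1 - a) / 8) :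
    0 < t ∧ t < 1 / 8 ∧ (1 + t) * (a * (1 + t) ^ 2) * (1 + 2 * t / 3) * (1 + 2 * (t / 500)) < 1 ∧
    a * (1 + t) ^ 2 * (1 + 2 * t / 3) ^ 2 ≤ 1 - 4 * t ∧ a * (1 + t) ^ 2 * (1 + t) < 1 ∧
    a * (1 + t) ^ 2 < 1 := by
  have h0 : 0 < t := by rw [ht]; linarith
  have h1 : t < 1 / 8 := by rw [ht]; linarith
  have ea : a = 1 - 8 * t := by rw [ht]; ring
  have h5 : (1 + t) ^ 5 ≤ 1 + 8 * t := by
    have t2 : t ^ 2 ≤ t * (1 / 8) := by nlinarith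
    have t3 : t ^ 3 ≤ t * (1 / 64) := by nlinarith [sq_nonneg t]
    have t4 : t ^ 4 ≤ t * (1 / 512) := by nlinarith [sq_nonneg t, pow_pos h0 3]
    have t5 : t ^ 5 ≤ t * (1 / 4096) := by nlinarith [sq_nonneg t, pow_pos h0 4]
    have e : (1 + t) ^ 5 = 1 + 5 * t + 10 * t ^ 2 + 10 * t ^ 3 + 5 * t ^ 4 + t ^ 5 := by ring
    rw [e]
    linarith
  have h6 : a * (1 + t) ^ 5 < 1 := by
    have := mul_le_mul_of_nonneg_left h5 ha0.le
    have e : a * (1 + 8 * t) = 1 - 64 * t ^ 2 := by rw [ea]; ring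
    have := sq_pos_of_pos h0
    linarith
  refine ⟨h0, h1, ?_, ?_, ?_, ?_⟩
  · refine lt_of_le_of_lt ?_ h6
    have e1 : a * (1 + t) ^ 5 = (1 + t) * (a * (1 + t) ^ 2) * (1 + t) * (1 + t) := by ring
    rw [e1]
    have : 0 ≤ (1 + t) * (a * (1 + t) ^ 2) := by positivity
    apply mul_le_mul
    · apply mul_le_mul_of_nonneg_left _ this
      linarith
    · linarith
    · positivity
    · positivity
  · have e1 : a * (1 + t) ^ 4 ≤ 1 - 4 * t := by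
      rw [ea]
      have e2 : 1 - 4 * t - (1 - 8 * t) * (1 + t) ^ 4 =
          26 * t ^ 2 + 44 * t ^ 3 + 31 * t ^ 4 + 8 * t ^ 5 := by ring
      have : 0 ≤ 26 * t ^ 2 + 44 * t ^ 3 + 31 * t ^ 4 + 8 * t ^ 5 := by positivity
      linarith
    refine le_trans ?_ e1
    have e2 : a * (1 + t) ^ 4 = a * (1 + t) ^ 2 * (1 + t) ^ 2 := by ring
    rw [e2]
    apply mul_le_mul_of_nonneg_left _ (by positivity)
    apply pow_le_pow_left₀ (by positivity)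
    linarith
  · refine lt_of_le_of_lt ?_ h6
    have e1 : a * (1 + t) ^ 5 = a * (1 + t) ^ 2 * (1 + t) * (1 + t) ^ 2 := by ring
    rw [e1]
    have h7 : 1 ≤ (1 + t) ^ 2 := by nlinarith
    have h8 : 0 ≤ a * (1 + t) ^ 2 * (1 + t) := by positivity
    nlinarith
  · refine lt_of_le_of_lt ?_ h6
    have e1 : a * (1 + t) ^ 5 = a * (1 + t) ^ 2 * (1 + t) ^ 3 := by ring
    rw [e1]
    have h7 : 1 ≤ (1 + t) ^ 3 := by
      have : (1 + t) ^ 3 = 1 + 3 * t + 3 * t ^ 2 + t ^ 3 := by ring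
      rw [this]
      have := pow_pos h0 2; have := pow_pos h0 3; linarith
    have h8 : 0 ≤ a * (1 + t) ^ 2 := by positivity
    nlinarith

end Pool.Agent.W677.Mar
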