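import Pool.Agent.H64.G.R_seed8.W677.MarF1

set_option autoImplicit false

/-! # The main theorem in disc coordinates -/

namespace Pool.Agent.W677.Mar

open Complex Metric Set Filter Topology MeasureTheory

/-- bound for `Q` -/
theorem Q_bloch {K A ε : ℝ} {Y H Q P g b e : ℂ → ℂ} {u : ℂ} (S : Sg Y H)
    (D : DC K A ε H Q P g b e u) (hε1 : ε ≤ 1) {w : ℂ}
    (hw : w ∈ ball (0 : ℂ) 1) : ‖Q w‖ * (1 - ‖w‖) ≤ 19 + 2 * A := by
  have hn : ‖w‖ < 1 := mem_ball_zero_iff.1 hw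
  have h1 := H_bloch S hw
  have h2 := strip_bloch D.dg D.sg hw
  have h3 := cauchy_half D.db hw (M := A) (by
    intro x hx
    apply D.bb
    apply ball_sub' hw
    rw [mem_ball_iff_norm]
    linarith)
  have h4 := D.be w hw
  have e1 : Q w = w * (u * deriv g w + deriv b w + deriv e w - deriv H w) := by
    have := D.eq w hw
    linear_combination this
  have h5 : ‖u * deriv g w + deriv b w + deriv e w - deriv H w‖ ≤
      ‖deriv g w‖ + ‖deriv b w‖ + ‖deriv e w‖ + ‖deriv H w‖ := by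
    have n1 := norm_sub_le (u * deriv g w + deriv b w + deriv e w) (deriv H w)
    have n2 := norm_add_le (u * deriv g w + deriv b w) (deriv e w)
    have n3 := norm_add_le (u * deriv g w) (deriv b w)
    have n4 : ‖u * deriv g w‖ ≤ ‖deriv g w‖ := by
      rw [norm_mul]
      have := mul_le_mul_of_nonneg_right D.u1 (norm_nonneg (deriv g w))
      linarith
    linarith
  have h6 : ‖Q w‖ ≤ ‖deriv g w‖ + ‖deriv b w‖ + ‖deriv e w‖ + ‖deriv H w‖ := by
    rw [e1, norm_mul]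
    have := mul_le_mul_of_nonneg_right hn.le
      (norm_nonneg (u * deriv g w + deriv b w + deriv e w - deriv H w))
    linarith
  have h7 := mul_le_mul_of_nonneg_right h6 (by linarith : 0 ≤ 1 - ‖w‖)
  have h8 : (‖deriv g w‖ + ‖deriv b w‖ + ‖deriv e w‖ + ‖deriv H w‖) * (1 - ‖w‖) =
    ‖deriv g w‖ * (1 - ‖w‖) + ‖deriv b w‖ * (1 - ‖w‖) + ‖deriv e w‖ * (1 - ‖w‖) +
      ‖deriv H w‖ * (1 - ‖w‖) := by ring
  linarith

theorem dil_mem {r : ℝ} (hr0 : 0 < r) {w : ℂ} (hw : w ∈ ball (0 : ℂ) (1 / r)) :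
    (r : ℂ) * w ∈ ball (0 : ℂ) 1 := by
  rw [mem_ball_zero_iff] at hw ⊢
  rw [norm_mul, Complex.norm_real, Real.norm_of_nonneg hr0.le]
  rw [lt_div_iff₀ hr0] at hw
  linarith

theorem dil_diff {f : ℂ → ℂ} (hf : DifferentiableOn ℂ f (ball 0 1)) {r : ℝ} (hr0 : 0 < r) :
    DifferentiableOn ℂ (fun w => f ((r : ℂ) * w)) (ball 0 (1 / r)) :=
  hf.comp (differentiableOn_id.const_mul _) (fun _ hw => dil_mem hr0 hw)

theorem dil_deriv {f : ℂ → ℂ} (hf : DifferentiableOn ℂ f (ball 0 1)) {r : ℝ} (hr0 : 0 < r) {w : ℂ}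
    (hw : w ∈ ball (0 : ℂ) (1 / r)) :
    HasDerivAt (fun w => f ((r : ℂ) * w)) ((r : ℂ) * deriv f ((r : ℂ) * w)) w := by
  have h1 := (hf.differentiableAt (isOpen_ball.mem_nhds (dil_mem hr0 hw))).hasDerivAt
  have h2 : HasDerivAt (fun w : ℂ => (r : ℂ) * w) (r : ℂ) w := by
    simpa using (hasDerivAt_id w).const_mul (r : ℂ)
  rw [mul_comm]
  exact h1.comp w h2

theorem dil_norm {r : ℝ} (hr0 : 0 < r) (w : ℂ) : ‖(r : ℂ) * w‖ = r * ‖w‖ := by
  rw [norm_mul, Complex.norm_real, Real.norm_of_nonneg hr0.le]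

/-- the dilated data -/
theorem toDA {K A ε r : ℝ} {Y H Q P g b e : ℂ → ℂ} {u : ℂ} (S : Sg Y H)
    (D : DC K A ε H Q P g b e u) (hε0 : 0 ≤ ε) (hε1 : ε ≤ 1) (hr0 : 0 < r)
    (hr1 : r < 1) :
    DA K (1 + 2 * ε) (19 + 2 * A) A (1 / r) (fun w => H (r * w) - e (r * w)) (fun w => Q (r * w))
      (fun w => P (r * w)) (fun w => g (r * w)) (fun w => b (r * w)) u := by
  have hR : 1 < 1 / r := by rw [lt_div_iff₀ hr0]; linarith
  have hsub : ball (0 : ℂ) 1 ⊆ ball 0 (1 / r) := ball_subset_ball hR.le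
  have hrw : ∀ w ∈ ball (0 : ℂ) 1, ‖(r : ℂ) * w‖ ≤ ‖w‖ := by
    intro w _
    rw [dil_norm hr0]
    have := mul_le_mul_of_nonneg_right hr1.le (norm_nonneg w)
    linarith
  refine ⟨hR, (dil_diff S.dH hr0).sub (dil_diff D.de hr0), dil_diff D.dQ hr0, dil_diff D.dP hr0,
    dil_diff D.dg hr0, dil_diff D.db hr0, ?_, ?_, ?_, ?_, ?_, D.u1, ?_, ?_, ?_⟩
  · intro w hw
    have hm := dil_mem hr0 (hsub hw)
    have h1 := goluzin_le S hm
    have h2 := bloch_growth D.de D.e0 D.be hm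
    have hn : ‖w‖ < 1 := mem_ball_zero_iff.1 hw
    have h3 : -Real.log (1 - ‖(r : ℂ) * w‖) ≤ -Real.log (1 - ‖w‖) := by
      apply neg_le_neg
      apply Real.log_le_log (by linarith)
      have := hrw w hw
      linarith
    have h4 : 0 ≤ -Real.log (1 - ‖w‖) := by
      have := Real.log_nonpos (by linarith : 0 ≤ 1 - ‖w‖) (by linarith [norm_nonneg w])
      linarith
    have h5 := norm_sub_le (H ((r : ℂ) * w)) (e ((r : ℂ) * w))
    have h6 : ε * -Real.log (1 - ‖(r : ℂ) * w‖) ≤ ε * -Real.log (1 - ‖w‖) :=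
      mul_le_mul_of_nonneg_left h3 hε0
    have h7 : 0 ≤ ε * -Real.log (1 - ‖w‖) := mul_nonneg hε0 h4
    show ‖H ((r : ℂ) * w) - e ((r : ℂ) * w)‖ ≤ (1 + 2 * ε) * -Real.log (1 - ‖w‖)
    linarith
  · intro w hw
    exact D.pP _ (dil_mem hr0 hw)
  · show ‖P ((r : ℂ) * 0)‖ ≤ K
    rw [mul_zero]
    exact D.P0
  · intro w hw
    have hm := dil_mem hr0 (hsub hw)
    have h1 := Q_bloch S D hε1 hm
    have h2 := hrw w hw
    have h3 := mul_le_mul_of_nonneg_left (by linarith : 1 - ‖w‖ ≤ 1 - ‖(r : ℂ) * w‖)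
      (norm_nonneg (Q ((r : ℂ) * w)))
    exact h3.trans h1
  · intro w hw x hx
    have hm := dil_mem hr0 (hsub hw)
    apply D.oQ _ hm
    have e1 : (r : ℂ) * x - r * w = r * (x - w) := by ring
    rw [e1, dil_norm hr0, dil_norm hr0]
    have := mul_le_mul_of_nonneg_left hx hr0.le
    nlinarith [norm_nonneg w]
  · intro w hw
    exact D.sg _ (dil_mem hr0 hw)
  · intro w hw
    exact D.bb _ (dil_mem hr0 hw)
  · intro w hw
    have hm := dil_mem hr0 hw
    have d1 := ((dil_deriv S.dH hr0 hw).sub (dil_deriv D.de hr0 hw)).deriv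
    have d2 := (dil_deriv D.dg hr0 hw).deriv
    have d3 := (dil_deriv D.db hr0 hw).deriv
    have d1' : deriv (fun w => H ((r : ℂ) * w) - e ((r : ℂ) * w)) w =
        (r : ℂ) * deriv H ((r : ℂ) * w) - (r : ℂ) * deriv e ((r : ℂ) * w) := d1
    rw [d1', d2, d3]
    have := D.eq _ hm
    linear_combination this

theorem log2_le {r : ℝ} (hr0 : 0 < r) (hr1 : r < 1) :
    -Real.log (1 - r) ≤ lam (r ^ 2) + Real.log 2 := by
  have e : (1 : ℝ) - r ^ 2 = (1 - r) * (1 + r) := by ring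
  unfold lam
  rw [e, Real.log_mul (by linarith) (by linarith)]
  have := Real.log_le_log (by linarith : 0 < 1 + r) (by linarith : 1 + r ≤ 2)
  linarith

theorem main_disc (a A : ℝ) (ha0 : 0 < a) (ha : a < 1) (hA : 0 ≤ A) : ∃ C : ℝ,
    ∀ (Y H Q P g b e : ℂ → ℂ) (u : ℂ) (K r : ℝ), 0 < r → r < 1 → Sg Y H →
      DC K A ((1 - a) / 24) H Q P g b e u →
      K ≤ (A + 1) * Real.exp ((1 - a) ^ 2 / 20000 * lam (r ^ 2)) →
      ∫ θ in (0 : ℝ)..(2 * Real.pi), Real.exp (a * ‖H (pt r θ)‖ ^ 2 / lam (r ^ 2)) ≤ C := by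
  have hpi := Real.pi_pos
  have hlog2 : 0 < Real.log 2 := Real.log_pos (by norm_num)
  obtain ⟨t, ht⟩ : ∃ t, t = (1 - a) / 8 := ⟨_, rfl⟩
  obtain ⟨p1, p2, p3, p4, p5, p6⟩ := par ha0 ha ht
  obtain ⟨a₁, ha₁⟩ : ∃ a₁, a₁ = a * (1 + t) ^ 2 := ⟨_, rfl⟩
  rw [← ha₁] at p3 p4 p5 p6
  have ha₁0 : 0 ≤ a₁ := by rw [ha₁]; positivity
  have hε : (1 - a) / 24 = t / 3 := by rw [ht]; ring
  have hΛ : 1 + 2 * (t / 3) = 1 + 2 * t / 3 := by ring
  obtain ⟨C₁, hC₁0, hC₁⟩ := core (1 + 2 * t / 3) (19 + 2 * A) A a₁ t (t / 500) (by linarith)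
    (by linarith) hA ha₁0 p1 (by linarith) p3 (by nlinarith)
  obtain ⟨L₀, hL₀⟩ : ∃ L₀, L₀ = 500 * Real.log 2 / t := ⟨_, rfl⟩
  have hL₀0 : 0 < L₀ := by rw [hL₀]; positivity
  refine ⟨2 * Real.pi * Real.exp L₀ + (2 * Real.pi * 5 + C₁ * (1 + (A + 1))) + 2 * Real.pi * 2, ?_⟩
  intro Y H Q P g b e u K r hr0 hr1 S D hK
  rw [hε] at D
  have hr2 : r ^ 2 < 1 := pow_lt_one₀ hr0.le hr1 two_ne_zero
  have hr20 : 0 < r ^ 2 := by positivity
  obtain ⟨L, hL⟩ : ∃ L, L = lam (r ^ 2) := ⟨_, rfl⟩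
  have hL0 : 0 < L := hL ▸ lam_pos hr20 hr2
  rw [← hL] at hK ⊢
  have hsph : ∀ θ, pt r θ ∈ ball (0 : ℂ) 1 := by
    intro θ
    rw [mem_ball_zero_iff, norm_pt r θ hr0.le]
    exact hr1
  have hHL : ∀ θ, ‖H (pt r θ)‖ ≤ L := by
    intro θ
    have := goluzin S (hsph θ)
    rw [norm_pt r θ hr0.le] at this
    rw [hL]
    exact this
  have hHc : Continuous fun θ => H (pt r θ) := cont_circ S.dH hr0.le hr1
  rcases lt_or_ge L L₀ with hLL | hLL
  · -- trivial case
    have h1 : ∫ θ in (0 : ℝ)..(2 * Real.pi), Real.exp (a * ‖H (pt r θ)‖ ^ 2 / L) ≤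
        ∫ θ in (0 : ℝ)..(2 * Real.pi), Real.exp L₀ := by
      apply intervalIntegral.integral_mono_on (by positivity)
      · apply Continuous.intervalIntegrable
        exact Real.continuous_exp.comp ((continuous_const.mul (hHc.norm.pow 2)).div_const L)
      · exact continuous_const.intervalIntegrable _ _
      · intro θ _
        apply Real.exp_le_exp.2
        rw [div_le_iff₀ hL0]
        have h2 := hHL θ
        have h3 : ‖H (pt r θ)‖ ^ 2 ≤ L ^ 2 := pow_le_pow_left₀ (norm_nonneg _) h2 2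
        have h4 : a * ‖H (pt r θ)‖ ^ 2 ≤ 1 * ‖H (pt r θ)‖ ^ 2 :=
          mul_le_mul_of_nonneg_right ha.le (by positivity)
        nlinarith
    rw [intervalIntegral.integral_const, sub_zero, smul_eq_mul] at h1
    have h2 : 0 ≤ C₁ * (1 + (A + 1)) := by positivity
    linarith [Real.exp_pos L₀]
  · have hyL : Real.log 2 ≤ t / 500 * L := by
      rw [hL₀, div_le_iff₀ p1] at hLL
      linarith
    obtain ⟨j₀, hj₀⟩ : ∃ j₀, j₀ = ⌈t / 500 * L / Real.log 2⌉₊ := ⟨_, rfl⟩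
    have hj1 : 1 ≤ j₀ := by
      rw [hj₀, Nat.one_le_ceil_iff]
      positivity
    have hjlo : t / 500 * L ≤ j₀ * Real.log 2 := by
      have := Nat.le_ceil (t / 500 * L / Real.log 2)
      rw [← hj₀, div_le_iff₀ hlog2] at this
      exact this
    have hjhi : j₀ * Real.log 2 ≤ 2 * (t / 500) * L := by
      have h1 := Nat.ceil_lt_add_one (by positivity : 0 ≤ t / 500 * L / Real.log 2)
      rw [← hj₀] at h1
      have h2 : (j₀ : ℝ) * Real.log 2 ≤ (t / 500 * L / Real.log 2 + 1) * Real.log 2 :=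
        mul_le_mul_of_nonneg_right h1.le hlog2.le
      have h3 : (t / 500 * L / Real.log 2 + 1) * Real.log 2 = t / 500 * L + Real.log 2 := by
        field_simp
      linarith
    have hε0 : 0 ≤ t / 3 := by linarith
    have hε1 : t / 3 ≤ 1 := by linarith
    have DD := toDA S D hε0 hε1 hr0 hr1
    rw [hΛ] at DD
    set H₁ : ℂ → ℂ := fun w => H ((r : ℂ) * w) - e ((r : ℂ) * w) with hH₁
    have hH₁pt : ∀ θ, H₁ (pt 1 θ) = H (pt r θ) - e (pt r θ) := by
      intro θ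
      simp only [hH₁]
      rw [← pt_eq r θ]
    have heL : ∀ θ, ‖e (pt r θ)‖ ≤ 2 * (t / 3) * L := by
      intro θ
      have h1 := bloch_growth D.de D.e0 D.be (hsph θ)
      rw [norm_pt r θ hr0.le] at h1
      have h2 := log2_le hr0 hr1
      rw [← hL] at h2
      have h3 : Real.log 2 ≤ L := by
        have : t / 500 * L ≤ 1 * L := mul_le_mul_of_nonneg_right (by linarith) hL0.le
        linarith
      have h4 := mul_le_mul_of_nonneg_left (h2.trans (by linarith : L + Real.log 2 ≤ 2 * L)) hε0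
      linarith
    have hH₁L : ∀ θ, ‖H₁ (pt 1 θ)‖ ≤ (1 + 2 * t / 3) * L := by
      intro θ
      rw [hH₁pt]
      have h1 := norm_sub_le (H (pt r θ)) (e (pt r θ))
      have h2 := hHL θ
      have h3 := heL θ
      have h4 : (1 + 2 * t / 3) * L = L + 2 * (t / 3) * L := by ring
      linarith
    have hK0 : 0 ≤ K := (norm_nonneg _).trans D.P0
    have hcore := hC₁ K (1 / r) L H₁ _ _ _ _ u j₀ DD hK0 hL0 hj1 hjhi hH₁L
    -- the factor K v^j₀
    have hKv : K * Real.exp (-(1 - a₁ * (1 + 2 * t / 3) ^ 2) * Real.log 2 / 2) ^ j₀ ≤ A + 1 := by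
      rw [← Real.exp_nat_mul]
      have h1 : (j₀ : ℝ) * (-(1 - a₁ * (1 + 2 * t / 3) ^ 2) * Real.log 2 / 2) ≤
          -((1 - a) ^ 2 / 20000 * L) := by
        have h2 : 4 * t * (t / 500 * L) ≤ (1 - a₁ * (1 + 2 * t / 3) ^ 2) * (j₀ * Real.log 2) := by
          apply mul_le_mul (by linarith) hjlo (by positivity)
          nlinarith
        have h3 : (1 - a) ^ 2 = 64 * t ^ 2 := by rw [ht]; ring
        rw [h3]
        have h4 : 0 ≤ t ^ 2 * L := by positivity
        nlinarith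
      calc K * Real.exp ((j₀ : ℝ) * (-(1 - a₁ * (1 + 2 * t / 3) ^ 2) * Real.log 2 / 2))
          ≤ ((A + 1) * Real.exp ((1 - a) ^ 2 / 20000 * L)) *
            Real.exp (-((1 - a) ^ 2 / 20000 * L)) :=
            mul_le_mul hK (Real.exp_le_exp.2 h1) (Real.exp_pos _).le (by positivity)
        _ = A + 1 := by rw [mul_assoc, ← Real.exp_add, add_neg_cancel, Real.exp_zero, mul_one]
    have hsub : ball (0 : ℂ) 1 ⊆ ball 0 (1 / r) := ball_subset_ball DD.R.le
    -- Makarov for H₁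
    obtain ⟨c, hc⟩ : ∃ c, c = (1 + 1 / t) * a₁ * (2 * (t / 500)) := ⟨_, rfl⟩
    have hc0 : 0 ≤ c := by rw [hc]; positivity
    have hcv : c ≤ 1 / 250 := by
      have : c = a₁ * (1 + t) / 250 := by
        rw [hc]
        field_simp
        ring
      rw [this]
      linarith
    have hmak := bloch_exp (g := H₁) (B := 7) (c := c) (r := rr j₀) (DD.dH.mono hsub)
      (by simp only [hH₁]; rw [mul_zero, S.H0, D.e0, sub_zero])
      (by
        intro w hw
        have hm := dil_mem hr0 (hsub hw)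
        have d1 : deriv H₁ w = (r : ℂ) * deriv H ((r : ℂ) * w) - (r : ℂ) * deriv e ((r : ℂ) * w) :=
          ((dil_deriv S.dH hr0 (hsub hw)).sub (dil_deriv D.de hr0 (hsub hw))).deriv
        have h1 := H_bloch S hm
        have h2 := D.be _ hm
        have hn : ‖w‖ < 1 := mem_ball_zero_iff.1 hw
        have h3 : ‖deriv H₁ w‖ ≤ ‖deriv H ((r : ℂ) * w)‖ + ‖deriv e ((r : ℂ) * w)‖ := by
          rw [d1, ← mul_sub, norm_mul, Complex.norm_real, Real.norm_of_nonneg hr0.le]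
          have h4 := norm_sub_le (deriv H ((r : ℂ) * w)) (deriv e ((r : ℂ) * w))
          have h5 := mul_le_mul_of_nonneg_right hr1.le
            (norm_nonneg (deriv H ((r : ℂ) * w) - deriv e ((r : ℂ) * w)))
          linarith
        have h6 : ‖(r : ℂ) * w‖ ≤ ‖w‖ := by
          rw [dil_norm hr0]
          have := mul_le_mul_of_nonneg_right hr1.le (norm_nonneg w)
          linarith
        have h7 : ‖deriv H₁ w‖ * (1 - ‖w‖) ≤
            (‖deriv H ((r : ℂ) * w)‖ + ‖deriv e ((r : ℂ) * w)‖) * (1 - ‖(r : ℂ) * w‖) :=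
          mul_le_mul h3 (by linarith) (by linarith) (by positivity)
        have h8 : (‖deriv H ((r : ℂ) * w)‖ + ‖deriv e ((r : ℂ) * w)‖) * (1 - ‖(r : ℂ) * w‖) =
          ‖deriv H ((r : ℂ) * w)‖ * (1 - ‖(r : ℂ) * w‖) +
            ‖deriv e ((r : ℂ) * w)‖ * (1 - ‖(r : ℂ) * w‖) := by ring
        linarith) hc0 (by linarith) (lt_of_lt_of_le (by norm_num) (rr_half hj1)) (rr_lt j₀)
    have hmak2 : (1 - 4 * c * 7 ^ 2)⁻¹ ≤ (5 : ℝ) := by
      rw [inv_le_comm₀ (by linarith) (by norm_num)]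
      linarith
    have hrr0 : 0 < rr j₀ := lt_of_lt_of_le (by norm_num) (rr_half hj1)
    have hlamj : lam (rr j₀ ^ 2) ≤ 2 * (t / 500) * L := by
      refine le_trans ?_ hjhi
      rw [← neg_log_rr]
      unfold lam
      apply neg_le_neg
      apply Real.log_le_log (by linarith [rr_lt j₀])
      nlinarith [rr_lt j₀]
    have hlamj0 : 0 < lam (rr j₀ ^ 2) := lam_pos (by positivity)
      (pow_lt_one₀ hrr0.le (rr_lt j₀) two_ne_zero)
    have hH₁c : ∀ ρ : ℝ, 0 ≤ ρ → ρ ≤ 1 → Continuous fun θ => H₁ (pt ρ θ) :=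
      fun ρ h0 h1 => cont_pt DD.R DD.dH h0 h1
    have hbase : ∫ θ in (0 : ℝ)..(2 * Real.pi),
        Real.exp ((1 + 1 / t) * (a₁ * ‖H₁ (pt (rr j₀) θ)‖ ^ 2 / L)) ≤ 2 * Real.pi * 5 := by
      have h1 : ∫ θ in (0 : ℝ)..(2 * Real.pi),
          Real.exp ((1 + 1 / t) * (a₁ * ‖H₁ (pt (rr j₀) θ)‖ ^ 2 / L)) ≤
          ∫ θ in (0 : ℝ)..(2 * Real.pi),
            Real.exp (c * ‖H₁ (pt (rr j₀) θ)‖ ^ 2 / lam (rr j₀ ^ 2)) := by
        apply intervalIntegral.integral_mono_on (by positivity)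
        · apply Continuous.intervalIntegrable
          exact Real.continuous_exp.comp (continuous_const.mul
            ((continuous_const.mul ((hH₁c _ hrr0.le (rr_lt j₀).le).norm.pow 2)).div_const L))
        · apply Continuous.intervalIntegrable
          exact Real.continuous_exp.comp
            ((continuous_const.mul ((hH₁c _ hrr0.le (rr_lt j₀).le).norm.pow 2)).div_const _)
        · intro θ _
          apply Real.exp_le_exp.2
          obtain ⟨X, hX⟩ : ∃ X, X = ‖H₁ (pt (rr j₀) θ)‖ ^ 2 := ⟨_, rfl⟩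
          have hX0 : 0 ≤ X := by rw [hX]; positivity
          rw [← hX, hc]
          have e1 : (1 + 1 / t) * (a₁ * X / L) = ((1 + 1 / t) * a₁ * X) * (1 / L) := by ring
          have e2 : (1 + 1 / t) * a₁ * (2 * (t / 500)) * X / lam (rr j₀ ^ 2) =
              ((1 + 1 / t) * a₁ * X) * (2 * (t / 500) / lam (rr j₀ ^ 2)) := by ring
          rw [e1, e2]
          apply mul_le_mul_of_nonneg_left _ (by positivity)
          rw [div_le_div_iff₀ hL0 hlamj0]
          linarith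
      exact h1.trans (hmak.trans (mul_le_mul_of_nonneg_left hmak2 (by positivity)))
    -- Makarov for e
    obtain ⟨ce, hce⟩ : ∃ ce, ce = (1 + 1 / t) * (a * (1 + 1 / t)) := ⟨_, rfl⟩
    have hce0 : 0 ≤ ce := by rw [hce]; positivity
    have hce1 : 4 * ce * (t / 3) ^ 2 ≤ 4 / 9 := by
      have : 4 * ce * (t / 3) ^ 2 = 4 / 9 * a₁ := by
        rw [hce, ha₁]
        field_simp
        ring
      rw [this]
      linarith
    have hmake := bloch_exp (g := e) (B := t / 3) (c := ce) (r := r) D.de D.e0 D.be hce0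
      (by linarith) hr0 hr1
    rw [← hL] at hmake
    have hmake2 : (1 - 4 * ce * (t / 3) ^ 2)⁻¹ ≤ (2 : ℝ) := by
      rw [inv_le_comm₀ (by linarith) (by norm_num)]
      linarith
    have hec : Continuous fun θ => e (pt r θ) := cont_circ D.de hr0.le hr1
    -- final pointwise estimate
    have hfin : ∫ θ in (0 : ℝ)..(2 * Real.pi), Real.exp (a * ‖H (pt r θ)‖ ^ 2 / L) ≤
        ∫ θ in (0 : ℝ)..(2 * Real.pi), (Real.exp (a₁ * ‖H₁ (pt 1 θ)‖ ^ 2 / L) +
          Real.exp (ce * ‖e (pt r θ)‖ ^ 2 / L)) := by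
      apply intervalIntegral.integral_mono_on (by positivity)
      · apply Continuous.intervalIntegrable
        exact Real.continuous_exp.comp ((continuous_const.mul (hHc.norm.pow 2)).div_const L)
      · apply Continuous.intervalIntegrable
        exact (Real.continuous_exp.comp ((continuous_const.mul
          ((hH₁c 1 zero_le_one le_rfl).norm.pow 2)).div_const L)).add
          (Real.continuous_exp.comp ((continuous_const.mul (hec.norm.pow 2)).div_const L))
      · intro θ _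
        obtain ⟨X, hX⟩ : ∃ X, X = ‖H₁ (pt 1 θ)‖ := ⟨_, rfl⟩
        obtain ⟨E, hE⟩ : ∃ E, E = ‖e (pt r θ)‖ := ⟨_, rfl⟩
        have h1 : ‖H (pt r θ)‖ ≤ X + E := by
          have e1 : H (pt r θ) = H₁ (pt 1 θ) + e (pt r θ) := by rw [hH₁pt]; ring
          rw [e1, hX, hE]
          exact norm_add_le _ _
        have hX0 : 0 ≤ X := hX ▸ norm_nonneg _
        have hE0 : 0 ≤ E := hE ▸ norm_nonneg _
        rw [← hX, ← hE]
        have h2 : ‖H (pt r θ)‖ ^ 2 ≤ (1 + t) * X ^ 2 + (1 + 1 / t) * E ^ 2 := by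
          have h3 : ‖H (pt r θ)‖ ^ 2 ≤ (X + E) ^ 2 := pow_le_pow_left₀ (norm_nonneg _) h1 2
          have h4 : 0 ≤ (t * X - E) ^ 2 / t := by positivity
          have h5 : (1 + t) * X ^ 2 + (1 + 1 / t) * E ^ 2 = (X + E) ^ 2 + (t * X - E) ^ 2 / t := by
            field_simp
            ring
          linarith
        have h3 : a * ‖H (pt r θ)‖ ^ 2 / L ≤
            a * (1 + t) * X ^ 2 / L + a * (1 + 1 / t) * E ^ 2 / L := by
          rw [← add_div, div_le_div_iff_of_pos_right hL0]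
          have := mul_le_mul_of_nonneg_left h2 ha0.le
          linarith
        have h4 := young (a * (1 + t) * X ^ 2 / L) (a * (1 + 1 / t) * E ^ 2 / L)
          (s := 1 / t) (by positivity)
        have e1 : (1 + 1 / (1 / t)) * (a * (1 + t) * X ^ 2 / L) = a₁ * X ^ 2 / L := by
          rw [one_div_one_div, ha₁]
          ring
        have e2 : (1 + 1 / t) * (a * (1 + 1 / t) * E ^ 2 / L) = ce * E ^ 2 / L := by
          rw [hce]
          ring
        rw [e1, e2] at h4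
        exact (Real.exp_le_exp.2 h3).trans h4
    have hc1 : Continuous fun θ => Real.exp (a₁ * ‖H₁ (pt 1 θ)‖ ^ 2 / L) :=
      Real.continuous_exp.comp ((continuous_const.mul
        ((hH₁c 1 zero_le_one le_rfl).norm.pow 2)).div_const L)
    have hc2 : Continuous fun θ => Real.exp (ce * ‖e (pt r θ)‖ ^ 2 / L) :=
      Real.continuous_exp.comp ((continuous_const.mul (hec.norm.pow 2)).div_const L)
    rw [intervalIntegral.integral_add (hc1.intervalIntegrable _ _)
      (hc2.intervalIntegrable _ _)] at hfin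
    have h1 : C₁ * (1 + K * Real.exp (-(1 - a₁ * (1 + 2 * t / 3) ^ 2) * Real.log 2 / 2) ^ j₀) ≤
        C₁ * (1 + (A + 1)) := mul_le_mul_of_nonneg_left (by linarith) hC₁0
    have h2 : 2 * Real.pi * (1 - 4 * ce * (t / 3) ^ 2)⁻¹ ≤ 2 * Real.pi * 2 :=
      mul_le_mul_of_nonneg_left hmake2 (by positivity)
    have h3 : 0 ≤ 2 * Real.pi * Real.exp L₀ := by positivity
    linarith

end Pool.Agent.W677.Mar
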