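import Pool.Agent.H64.G.R_seed8.H643R3.Bom.C4
import Pool.Agent.H64.G.R_seed8.H643R3.Bom.C3
import Pool.Agent.H64.G.R_seed8.Helper240.ZFM.AreaA

set_option autoImplicit false

/-! # The area inequality for the class Sigma (adapted from H757.Bom.C1, H75R3.Bom.C2, H643R3.Bom.C3:
the proofs there do not use that the map is odd) -/

namespace Pool.Agent.W677.Mar

open Complex MeasureTheory Set Filter Topology Metric
open Pool.Agent.H33R3.Bom Pool.Agent.Helper405.Area

/-- `G z = Y z / z` is univalent in the punctured disc with a simple pole at `0`, residue `1` -/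
structure IsG0 (Y : ℂ → ℂ) : Prop where
  diff : DifferentiableOn ℂ Y (ball 0 1)
  one : Y 0 = 1
  inj : InjOn (fun z => Y z / z) (ball 0 1 \ {0})

def T1 : Prop :=
  ∀ Y : ℂ → ℂ, IsG0 Y → ∀ (V : Polynomial ℂ) (R : ℝ), 0 < R → R < 1 →
    J R (fun z => V.eval (Y z / z)) (deriv fun z => V.eval (Y z / z)) ≤ 0

def T2 : Prop :=
  ∀ Y : ℂ → ℂ, IsG0 Y → ∀ R : ℝ, R < 1 → ∀ ζ : ℂ, ζ ≠ 0 → ‖ζ‖ < R → ∀ δ : ℝ, 0 < δ →
    ∃ q : Polynomial ℂ, ∀ z : ℂ, ‖z‖ = R → ‖q.eval (Y z / z) - (Y ζ / ζ - Y z / z)⁻¹‖ ≤ δ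

def T3 : Prop :=
  T1 → ∀ Y : ℂ → ℂ, IsG0 Y → ∀ R : ℝ, 0 < R → R < 1 → ∀ Q φ : ℂ → ℂ,
    (∀ δ : ℝ, 0 < δ → ∃ q : Polynomial ℂ, ∀ z : ℂ, ‖z‖ = R → ‖q.eval (Y z / z) - Q z‖ ≤ δ) →
    (∀ z : ℂ, ‖z‖ = R → HasDerivAt φ (Q z * deriv (fun z => Y z / z) z) z) →
    J R φ (deriv φ) ≤ 0

theorem t1 : T1 := by
  intro Y hY V R hR0 hR1
  set m : ℕ := V.natDegree with hm
  set h : ℂ → ℂ := fun z => Y z / z with hh
  set P : ℂ → ℂ := fun z => ∑ j ∈ Finset.range (m + 1), V.coeff j * Y z ^ j * z ^ (m - j)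
    with hPdef
  have hPd : DifferentiableOn ℂ P (ball 0 1) := by
    apply DifferentiableOn.fun_sum
    intro j _
    exact ((hY.diff.pow j).const_mul _).mul (differentiableOn_id.pow _)
  have hd : DifferentiableOn ℂ h Dp := by
    intro z hz
    have h1 : DifferentiableWithinAt ℂ Y Dp z := (hY.diff z hz.1).mono diff_subset
    exact h1.div differentiableWithinAt_id hz.2
  have hi : InjOn h Dp := hY.inj
  have hp : Tendsto h (𝓝[≠] 0) (Bornology.cobounded ℂ) := by
    rw [← tendsto_norm_atTop_iff_cobounded]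
    have h1 : Tendsto (fun z => ‖Y z‖) (𝓝[≠] 0) (𝓝 1) := by
      have h2 : ContinuousAt Y 0 :=
        (hY.diff.continuousOn).continuousAt (isOpen_ball.mem_nhds (mem_ball_self one_pos))
      have h3 : Tendsto (fun z => ‖Y z‖) (𝓝 0) (𝓝 ‖Y 0‖) := h2.norm
      rw [hY.one, norm_one] at h3
      exact h3.mono_left nhdsWithin_le_nhds
    have h2 : Tendsto (fun z : ℂ => ‖z⁻¹‖) (𝓝[≠] 0) atTop :=
      tendsto_norm_cobounded_atTop.comp tendsto_inv₀_nhdsNE_zero
    have h3 := h1.pos_mul_atTop one_pos h2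
    refine h3.congr fun z => ?_
    simp only [hh]
    rw [div_eq_mul_inv, norm_mul]
  have hV : Differentiable ℂ (fun w => V.eval w) := V.differentiable
  have hF : ∀ z ∈ Dp, V.eval (h z) * z ^ m = P z := by
    intro z hz
    have hz0 : z ≠ 0 := hz.2
    simp only [hPdef]
    rw [Polynomial.eval_eq_sum_range, Finset.sum_mul]
    refine Finset.sum_congr rfl fun j hj => ?_
    have hj' : j ≤ m := by
      have := Finset.mem_range.mp hj
      omega
    have e : z ^ m = z ^ j * z ^ (m - j) := by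
      rw [← pow_add]
      congr 1
      omega
    rw [e]
    simp only [hh]
    rw [div_pow]
    field_simp
  set a : ℕ → ℂ := fun n => (n.factorial : ℂ)⁻¹ * iteratedDeriv n P 0 with ha_def
  have ha : ∀ z ∈ ball (0:ℂ) 1, HasSum (fun j => a j * z ^ j) (P z) := by
    intro z hz
    have h1 := Complex.hasSum_taylorSeries_on_ball hPd hz
    refine h1.congr_fun ?_ |> fun h => h
    intro n
    simp only [ha_def, smul_eq_mul, sub_zero]
    ring
  have harea := area hd hi hp hV hPd hF ha hR0 hR1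
  set Q : ℂ → ℂ := fun z => z * deriv P z - m * P z with hQ
  have hQs := hasSum_Q ha m
  have hder : ∀ z ∈ Dp, deriv (fun z => V.eval (Y z / z)) z =
      deriv (fun w => V.eval w) (h z) * deriv h z := by
    intro z hz
    have hdz := ((hd z hz).differentiableAt (isOpen_Dp.mem_nhds hz)).hasDerivAt
    have h1 : HasDerivAt (fun z => V.eval (h z)) (deriv (fun w => V.eval w) (h z) * deriv h z) z :=
      (hV (h z)).hasDerivAt.comp z hdz
    exact h1.deriv
  have hQz : ∀ z ∈ Dp, (starRingEnd ℂ) (V.eval (h z)) *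
      (z * (deriv (fun w => V.eval w) (h z) * deriv h z)) =
      (((‖z‖ ^ (2 * m) : ℝ) : ℂ))⁻¹ * ((starRingEnd ℂ) (P z) * Q z) := by
    intro z hz
    have hz0 : z ≠ 0 := hz.2
    have hdz := ((hd z hz).differentiableAt (isOpen_Dp.mem_nhds hz)).hasDerivAt
    have h1 : HasDerivAt (fun z => V.eval (h z) * z ^ m)
        (deriv (fun w => V.eval w) (h z) * deriv h z * z ^ m +
          V.eval (h z) * (m * z ^ (m - 1))) z :=
      ((hV (h z)).hasDerivAt.comp z hdz).mul (hasDerivAt_pow m z)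
    have h2 : deriv P z = deriv (fun w => V.eval w) (h z) * deriv h z * z ^ m +
        V.eval (h z) * (m * z ^ (m - 1)) := by
      rw [← h1.deriv]
      apply Filter.EventuallyEq.deriv_eq
      filter_upwards [isOpen_Dp.mem_nhds hz] with w hw
      exact (hF w hw).symm
    have h3 : Q z = z * (deriv (fun w => V.eval w) (h z) * deriv h z) * z ^ m := by
      simp only [hQ]
      rw [h2, ← hF z hz]
      rcases Nat.eq_zero_or_pos m with hm0 | hm0
      · rw [hm0]; simp
      · have : z ^ m = z * z ^ (m - 1) := by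
          rw [← pow_succ', Nat.sub_add_cancel hm0]
        rw [this]; ring
    have h4 : ((‖z‖ ^ (2 * m) : ℝ) : ℂ) = (starRingEnd ℂ) (z ^ m) * z ^ m := by
      rw [← Complex.normSq_eq_conj_mul_self, Complex.normSq_eq_norm_sq, norm_pow]
      push_cast
      ring
    rw [h3, h4, ← hF z hz, map_mul]
    have h5 : z ^ m ≠ 0 := pow_ne_zero _ hz0
    have h6 : (starRingEnd ℂ) (z ^ m) ≠ 0 := (map_ne_zero _).2 h5
    field_simp
  set S : ℝ := ∑' j : ℕ, ((j : ℝ) - m) * ‖a j‖ ^ 2 * R ^ (2 * j) with hS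
  have key : ∫ θ in (0:ℝ)..(2 * Real.pi), (starRingEnd ℂ) (P (circleMap 0 R θ)) *
      Q (circleMap 0 R θ) = ((2 * Real.pi * S : ℝ) : ℂ) := by
    have h1 := parseval hR0.le (summable_of_hasSum ha hR0.le hR1)
      (summable_of_hasSum hQs hR0.le hR1)
      (fun z hz => ha z (by rw [mem_ball_zero_iff, hz]; exact hR1))
      (fun z hz => hQs z (by rw [mem_ball_zero_iff, hz]; exact hR1))
    have h2 : (fun j : ℕ => (starRingEnd ℂ) (a j) * (((j : ℂ) - m) * a j) *
        ((R ^ (2 * j) : ℝ) : ℂ))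
        = fun j : ℕ => ((((j : ℝ) - m) * ‖a j‖ ^ 2 * R ^ (2 * j) : ℝ) : ℂ) := by
      funext j
      have h3 : ((‖a j‖ ^ 2 : ℝ) : ℂ) = (starRingEnd ℂ) (a j) * a j := by
        rw [← Complex.normSq_eq_norm_sq, Complex.normSq_eq_conj_mul_self]
      rw [ofReal_mul, ofReal_mul, h3]
      push_cast
      ring
    rw [h2] at h1
    set c : ℂ := (2 * Real.pi : ℂ)⁻¹ * ∫ θ in (0:ℝ)..(2 * Real.pi),
      (starRingEnd ℂ) (P (circleMap 0 R θ)) * Q (circleMap 0 R θ) with hc
    have hre := Complex.hasSum_re h1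
    have him := Complex.hasSum_im h1
    simp only [ofReal_re, ofReal_im] at hre him
    have him0 : c.im = 0 := him.unique hasSum_zero
    have h4 : c = ((S : ℝ) : ℂ) := by
      apply Complex.ext
      · rw [ofReal_re, hS]
        exact hre.tsum_eq.symm
      · rw [him0, ofReal_im]
    have h5 : ∫ θ in (0:ℝ)..(2 * Real.pi), (starRingEnd ℂ) (P (circleMap 0 R θ)) *
        Q (circleMap 0 R θ) = (2 * Real.pi : ℂ) * c := by
      have hpi : (Real.pi : ℂ) ≠ 0 := by exact_mod_cast Real.pi_ne_zero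
      rw [hc]
      field_simp
    rw [h5, h4]
    push_cast
    ring
  have hfin : J R (fun z => V.eval (Y z / z)) (deriv fun z => V.eval (Y z / z)) =
      (R ^ (2 * m))⁻¹ * (2 * Real.pi * S) := by
    have h1 : ∀ θ : ℝ, (starRingEnd ℂ) ((fun z => V.eval (Y z / z)) (circleMap 0 R θ)) *
        (circleMap 0 R θ * (deriv fun z => V.eval (Y z / z)) (circleMap 0 R θ)) =
        (((R ^ (2 * m) : ℝ) : ℂ))⁻¹ * ((starRingEnd ℂ) (P (circleMap 0 R θ)) *
          Q (circleMap 0 R θ)) := by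
      intro θ
      have hn : ‖circleMap 0 R θ‖ = R := by simp [abs_of_pos hR0]
      have hD : circleMap 0 R θ ∈ Dp := by
        refine ⟨by rw [mem_ball_zero_iff, hn]; exact hR1, ?_⟩
        intro h0
        rw [mem_singleton_iff] at h0
        rw [h0, norm_zero] at hn
        exact hR0.ne hn
      have h2 := hQz _ hD
      rw [hn] at h2
      rw [← h2, hder _ hD]
    unfold J
    simp only [h1]
    rw [intervalIntegral.integral_const_mul, key, ← ofReal_inv, ← ofReal_mul, ofReal_re]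
  rw [hfin]
  have hπ := Real.pi_pos
  have h1 : 0 < (R ^ (2 * m))⁻¹ := by positivity
  have h2 : 2 * Real.pi * S ≤ 0 := mul_nonpos_of_nonneg_of_nonpos (by positivity) harea
  exact mul_nonpos_of_nonneg_of_nonpos h1.le h2


theorem t2 : T2 := by
  intro Y hY R hR1 ζ hζ0 hζR δ hδ
  have hR0 : 0 < R := lt_of_le_of_lt (norm_nonneg ζ) hζR
  set g : ℂ → ℂ := fun z => Y z / z with hg
  have hgcont : ContinuousOn g (ball (0 : ℂ) 1 \ {0}) := by
    apply ContinuousOn.div
    · exact hY.diff.continuousOn.mono diff_subset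
    · exact continuousOn_id
    · intro z hz; exact hz.2
  have hsph : ∀ z : sphere (0 : ℂ) R, (z : ℂ) ∈ ball (0 : ℂ) 1 \ {0} := by
    intro z
    have h1 : ‖(z : ℂ)‖ = R := by simpa using z.2
    refine ⟨by simp [h1, hR1], ?_⟩
    intro h
    simp only [mem_singleton_iff] at h
    rw [h] at h1; simp at h1; linarith
  let x : C(sphere (0 : ℂ) R, ℂ) := ⟨fun z => g z, by
    exact hgcont.comp_continuous continuous_subtype_val hsph⟩
  let A := Algebra.elemental ℂ x
  haveI hA : IsClosed ((A : Subalgebra ℂ C(sphere (0 : ℂ) R, ℂ)) : Set C(sphere (0 : ℂ) R, ℂ)) :=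
    Algebra.elemental.isClosed ℂ x
  let xA : A := ⟨x, Algebra.elemental.self_mem ℂ x⟩
  -- the curve
  have hseg : ∀ t ∈ Ioc (0 : ℝ) 1, (t : ℂ) * ζ ∈ ball (0 : ℂ) 1 \ {0} ∧ ‖(t : ℂ) * ζ‖ < R := by
    intro t ht
    have h1 : ‖(t : ℂ) * ζ‖ = t * ‖ζ‖ := by
      rw [norm_mul, Complex.norm_real, Real.norm_eq_abs, abs_of_pos ht.1]
    have h2 : t * ‖ζ‖ ≤ ‖ζ‖ := by
      have := norm_nonneg ζ
      nlinarith [ht.2]
    have h3 : ‖(t : ℂ) * ζ‖ < R := by rw [h1]; linarith
    refine ⟨⟨by simp only [mem_ball_zero_iff]; linarith, ?_⟩, h3⟩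
    simp only [mem_singleton_iff, mul_eq_zero, hζ0, or_false]
    exact_mod_cast ht.1.ne'
  set C : Set ℂ := (fun t : ℝ => g ((t : ℂ) * ζ)) '' Ioc (0 : ℝ) 1 with hC
  have hCpre : IsPreconnected C := by
    apply isPreconnected_Ioc.image
    apply ContinuousOn.comp (t := ball (0 : ℂ) 1 \ {0}) hgcont
    · exact (by fun_prop : Continuous fun t : ℝ => (t : ℂ) * ζ).continuousOn
    · intro t ht; exact (hseg t ht).1
  have hspec : C ⊆ (spectrum ℂ x)ᶜ := by
    rintro w ⟨t, ht, rfl⟩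
    rw [mem_compl_iff, ContinuousMap.spectrum_eq_range]
    rintro ⟨z, hz⟩
    have hz' : g z = g ((t : ℂ) * ζ) := hz
    have := hY.inj (hsph z) (hseg t ht).1 hz'
    have h1 : ‖(z : ℂ)‖ = R := by simpa using z.2
    have h2 := (hseg t ht).2
    rw [← this, h1] at h2
    exact lt_irrefl _ h2
  have hζC : g ζ ∈ C := ⟨1, by simp, by simp⟩
  have hunb : ¬ Bornology.IsBounded C := by
    intro hb
    obtain ⟨M, hM⟩ := hb.exists_norm_le
    -- Y (tζ) → 1, so g(tζ) is large
    have hYc : ContinuousAt Y 0 := (hY.diff.differentiableAt (ball_mem_nhds _ one_pos)).continuousAt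
    have h1 : Tendsto (fun t : ℝ => Y ((t : ℂ) * ζ)) (𝓝[>] 0) (𝓝 1) := by
      have h2 : Tendsto (fun t : ℝ => (t : ℂ) * ζ) (𝓝[>] 0) (𝓝 0) := by
        have : Tendsto (fun t : ℝ => (t : ℂ) * ζ) (𝓝 0) (𝓝 (((0 : ℝ) : ℂ) * ζ)) :=
          (by fun_prop : Continuous fun t : ℝ => (t : ℂ) * ζ).tendsto 0
        simp only [Complex.ofReal_zero, zero_mul] at this
        exact this.mono_left nhdsWithin_le_nhds
      have h3 := hYc.tendsto.comp h2
      rw [hY.one] at h3
      exact h3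
    have h4 : Tendsto (fun t : ℝ => (M + 1) * ((t : ℝ) * ‖ζ‖)) (𝓝[>] 0) (𝓝 0) := by
      have : Tendsto (fun t : ℝ => (M + 1) * ((t : ℝ) * ‖ζ‖)) (𝓝 0) (𝓝 ((M + 1) * ((0 : ℝ) * ‖ζ‖))) :=
        (by fun_prop : Continuous fun t : ℝ => (M + 1) * ((t : ℝ) * ‖ζ‖)).tendsto 0
      simp only [zero_mul, mul_zero] at this
      exact this.mono_left nhdsWithin_le_nhds
    have h5 : Tendsto (fun t : ℝ => ‖Y ((t : ℂ) * ζ)‖) (𝓝[>] 0) (𝓝 1) := by
      simpa using h1.norm
    have h6 : ∀ᶠ t : ℝ in 𝓝[>] 0, (M + 1) * (t * ‖ζ‖) < ‖Y ((t : ℂ) * ζ)‖ :=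
      h4.eventually_lt h5 one_pos
    have h7 : ∀ᶠ t : ℝ in 𝓝[>] 0, t ∈ Ioc (0 : ℝ) 1 := Ioc_mem_nhdsGT one_pos
    obtain ⟨t, ht1, ht2⟩ := (h6.and h7).exists
    have h8 := hM _ (mem_image_of_mem _ ht2)
    have h9 : ‖g ((t : ℂ) * ζ)‖ = ‖Y ((t : ℂ) * ζ)‖ / (t * ‖ζ‖) := by
      rw [hg]; simp only [norm_div, norm_mul, Complex.norm_real, Real.norm_eq_abs, abs_of_pos ht2.1]
    have hpos : 0 < t * ‖ζ‖ := mul_pos ht2.1 (norm_pos_iff.mpr hζ0)
    rw [h9, div_le_iff₀ hpos] at h8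
    nlinarith
  have hnot : g ζ ∉ spectrum ℂ xA := by
    intro h
    have h1 := Subalgebra.spectrum_isBounded_connectedComponentIn A xA h
    apply hunb
    apply h1.subset
    apply hCpre.subset_connectedComponentIn hζC
    exact hspec
  rw [spectrum.notMem_iff] at hnot
  obtain ⟨u, hu⟩ := hnot
  -- the inverse
  have hinv : ((u⁻¹ : Aˣ) : A) ∈ (⊤ : Set A) := trivial
  set v : C(sphere (0 : ℂ) R, ℂ) := (((u⁻¹ : Aˣ) : A) : C(sphere (0 : ℂ) R, ℂ)) with hv
  have hvx : v * (algebraMap ℂ _ (g ζ) - x) = 1 := by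
    have h1 : ((u⁻¹ : Aˣ) : A) * (algebraMap ℂ A (g ζ) - xA) = 1 := by
      rw [← hu]; exact u.inv_mul
    have h2 := congrArg (fun a : A => (a : C(sphere (0 : ℂ) R, ℂ))) h1
    simpa using h2
  have hvz : ∀ z : sphere (0 : ℂ) R, v z = (g ζ - g z)⁻¹ := by
    intro z
    have h1 := congrArg (fun f : C(sphere (0 : ℂ) R, ℂ) => f z) hvx
    have h2 : v z * (g ζ - g z) = 1 := by
      have h3 : v z * (g ζ - x z) = 1 := by simpa using h1
      exact h3
    exact eq_inv_of_mul_eq_one_left h2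
  have hvmem : v ∈ closure ((Algebra.adjoin ℂ {x} : Subalgebra ℂ C(sphere (0 : ℂ) R, ℂ)) :
      Set C(sphere (0 : ℂ) R, ℂ)) := by
    have : v ∈ A := ((u⁻¹ : Aˣ) : A).2
    exact this
  rw [Metric.mem_closure_iff] at hvmem
  obtain ⟨p, hp, hpd⟩ := hvmem δ hδ
  have hp' : p ∈ (Algebra.adjoin ℂ {x} : Subalgebra ℂ C(sphere (0 : ℂ) R, ℂ)) := hp
  rw [Algebra.adjoin_singleton_eq_range_aeval] at hp'
  obtain ⟨q, hq⟩ := hp'
  refine ⟨q, fun z hz => ?_⟩
  let zz : sphere (0 : ℂ) R := ⟨z, by simpa using hz⟩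
  have h1 := ContinuousMap.dist_apply_le_dist (f := v) (g := p) zz
  have h2 : p zz = q.eval (g z) := by
    rw [← hq]
    have h3 : (Polynomial.aeval x q) zz = Polynomial.aeval (x zz) q := by
      exact (Polynomial.aeval_algHom_apply (ContinuousMap.evalAlgHom ℂ ℂ zz) x q).symm
    refine Eq.trans h3 ?_
    rw [Polynomial.coe_aeval_eq_eval]
    rfl
  rw [hvz zz, h2, dist_eq_norm, norm_sub_rev] at h1
  exact h1.trans hpd.le


theorem t3 : T3 := by
  intro hC1 Y hY R hR0 hR1 Q φ hQ hφ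
  have hpi := Real.pi_pos
  set G : ℂ → ℂ := fun z => Y z / z with hG
  have hopen : IsOpen (ball (0 : ℂ) 1 \ {0}) := isOpen_ball.sdiff isClosed_singleton
  have hGd : DifferentiableOn ℂ G (ball (0 : ℂ) 1 \ {0}) := by
    intro z hz
    have h1 : DifferentiableAt ℂ Y z := hY.diff.differentiableAt (isOpen_ball.mem_nhds hz.1)
    exact (h1.div differentiableAt_id (by simpa using hz.2)).differentiableWithinAt
  have hsub : sphere (0 : ℂ) R ⊆ ball (0 : ℂ) 1 \ {0} := by
    intro z hz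
    rw [mem_sphere_zero_iff_norm] at hz
    refine ⟨by rw [mem_ball_zero_iff]; linarith, ?_⟩
    intro h
    rw [Set.mem_singleton_iff] at h
    rw [h, norm_zero] at hz
    linarith
  have hGc : ContinuousOn G (sphere (0 : ℂ) R) := (hGd.continuousOn).mono hsub
  have hG'c : ContinuousOn (deriv G) (sphere (0 : ℂ) R) :=
    ((hGd.deriv hopen).continuousOn).mono hsub
  have hQc : ContinuousOn Q (sphere (0 : ℂ) R) := by
    refine continuousOn_of_uniform_approx_of_continuousOn fun u hu => ?_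
    obtain ⟨ε, hε, hεu⟩ := Metric.mem_uniformity_dist.1 hu
    obtain ⟨q, hq⟩ := hQ (ε / 2) (by positivity)
    refine ⟨fun z => q.eval (G z), ?_, ?_⟩
    · exact q.continuous.comp_continuousOn hGc
    · intro z hz
      apply hεu
      rw [dist_eq_norm, norm_sub_rev]
      have := hq z (mem_sphere_zero_iff_norm.1 hz)
      exact lt_of_le_of_lt this (by linarith)
  have hγs : ∀ θ, circleMap 0 R θ ∈ sphere (0 : ℂ) R := fun θ => circleMap_mem_sphere 0 hR0.le θ
  have hγn : ∀ θ, ‖circleMap 0 R θ‖ = R := fun θ => mem_sphere_zero_iff_norm.1 (hγs θ)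
  have hγc : Continuous (circleMap 0 R) := continuous_circleMap 0 R
  have hper : circleMap 0 R (2 * Real.pi) = circleMap 0 R 0 := by
    have := periodic_circleMap 0 R 0
    simpa using this
  -- the functions on the circle
  set b : ℝ → ℂ := fun θ => circleMap 0 R θ * (Q (circleMap 0 R θ) * deriv G (circleMap 0 R θ))
    with hb
  have hbc : Continuous b := by
    refine hγc.mul ((hQc.comp_continuous hγc hγs).mul (hG'c.comp_continuous hγc hγs))
  set a : ℝ → ℂ := fun θ => φ (circleMap 0 R θ) with ha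
  have had : ∀ θ, HasDerivAt a (b θ * I) θ := by
    intro θ
    have h1 := (hφ _ (hγn θ)).scomp θ (hasDerivAt_circleMap 0 R θ)
    convert! h1 using 1
    simp only [hb, smul_eq_mul]
    ring
  have hac : Continuous a := continuous_iff_continuousAt.2 fun θ => (had θ).continuousAt
  obtain ⟨A, hA⟩ := (isCompact_Icc (a := (0 : ℝ)) (b := 2 * Real.pi)).exists_bound_of_continuousOn
    (f := fun θ => a θ - a 0) (hac.sub continuous_const).continuousOn
  obtain ⟨B, hB⟩ := (isCompact_Icc (a := (0 : ℝ)) (b := 2 * Real.pi)).exists_bound_of_continuousOn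
    (f := b) hbc.continuousOn
  obtain ⟨M, hM⟩ := (isCompact_sphere (0 : ℂ) R).exists_bound_of_continuousOn hG'c
  have hA0 : 0 ≤ A := (norm_nonneg _).trans (hA 0 ⟨le_refl _, by positivity⟩)
  have hB0 : 0 ≤ B := (norm_nonneg _).trans (hB 0 ⟨le_refl _, by positivity⟩)
  have hM0 : 0 ≤ M := (norm_nonneg _).trans (hM _ (hγs 0))
  have hJ : J R φ (deriv φ) =
      (∫ θ in (0 : ℝ)..(2 * Real.pi), (starRingEnd ℂ) (a θ) * b θ).re := by
    unfold J
    congr 1
    refine intervalIntegral.integral_congr fun θ _ => ?_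
    simp only [ha, hb]
    rw [(hφ _ (hγn θ)).deriv]
  -- the approximation
  have hbound : ∀ δ : ℝ, 0 < δ → δ ≤ 1 → J R φ (deriv φ) ≤
      δ * ((A * (R * M) + 2 * Real.pi * (R * M) * (B + R * M)) * (2 * Real.pi)) := by
    intro δ hδ hδ1
    obtain ⟨q, hq⟩ := hQ δ hδ
    obtain ⟨V, hV⟩ := Pool.Agent.H643R3.BomC3.exists_antideriv q
    set b₂ : ℝ → ℂ := fun θ => circleMap 0 R θ *
      (q.eval (G (circleMap 0 R θ)) * deriv G (circleMap 0 R θ)) with hb₂
    set a₂ : ℝ → ℂ := fun θ => V.eval (G (circleMap 0 R θ)) with ha₂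
    have hφ₂ : ∀ z : ℂ, ‖z‖ = R →
        HasDerivAt (fun z => V.eval (G z)) (q.eval (G z) * deriv G z) z := by
      intro z hz
      have h1 : HasDerivAt G (deriv G z) z :=
        (hGd.differentiableAt (hopen.mem_nhds (hsub (mem_sphere_zero_iff_norm.2 hz)))).hasDerivAt
      have h2 := (V.hasDerivAt (G z)).comp z h1
      rw [hV] at h2
      exact h2
    have hb₂c : Continuous b₂ := by
      refine hγc.mul ((q.continuous.comp (hGc.comp_continuous hγc hγs)).mul
        (hG'c.comp_continuous hγc hγs))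
    have had₂ : ∀ θ, HasDerivAt a₂ (b₂ θ * I) θ := by
      intro θ
      have h1 := (hφ₂ _ (hγn θ)).scomp θ (hasDerivAt_circleMap 0 R θ)
      convert! h1 using 1
      simp only [hb₂, smul_eq_mul]
      ring
    have hη : ∀ θ, ‖b θ - b₂ θ‖ ≤ δ * (R * M) := by
      intro θ
      have e : b θ - b₂ θ = circleMap 0 R θ * ((Q (circleMap 0 R θ) -
          q.eval (G (circleMap 0 R θ))) * deriv G (circleMap 0 R θ)) := by
        simp only [hb, hb₂]; ring
      rw [e, norm_mul, norm_mul, hγn θ]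
      have h1 : ‖Q (circleMap 0 R θ) - q.eval (G (circleMap 0 R θ))‖ ≤ δ := by
        rw [norm_sub_rev]
        exact hq _ (hγn θ)
      have h2 := hM _ (hγs θ)
      calc R * (‖Q (circleMap 0 R θ) - q.eval (G (circleMap 0 R θ))‖ *
            ‖deriv G (circleMap 0 R θ)‖) ≤ R * (δ * M) := by
            refine mul_le_mul_of_nonneg_left (mul_le_mul h1 h2 (norm_nonneg _) hδ.le) hR0.le
        _ = δ * (R * M) := by ring
    have hest := Pool.Agent.H643R3.BomC3.est a b a₂ b₂ hbc hb₂c had had₂ (by simp only [ha]; rw [hper])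
      (by simp only [ha₂]; rw [hper]) (δ * (R * M)) A B (by positivity) hη hA hB
    have hJ₂ : J R (fun z => V.eval (G z)) (deriv fun z => V.eval (G z)) =
        (∫ θ in (0 : ℝ)..(2 * Real.pi), (starRingEnd ℂ) (a₂ θ) * b₂ θ).re := by
      unfold J
      congr 1
      refine intervalIntegral.integral_congr fun θ _ => ?_
      simp only [ha₂, hb₂]
      rw [(hφ₂ _ (hγn θ)).deriv]
    have h0 : J R (fun z => V.eval (G z)) (deriv fun z => V.eval (G z)) ≤ 0 :=
      hC1 Y hY V R hR0 hR1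
    rw [hJ₂] at h0
    rw [hJ]
    have h1 := Complex.re_le_norm ((∫ θ in (0 : ℝ)..(2 * Real.pi), (starRingEnd ℂ) (a θ) * b θ) -
      ∫ θ in (0 : ℝ)..(2 * Real.pi), (starRingEnd ℂ) (a₂ θ) * b₂ θ)
    rw [Complex.sub_re] at h1
    have h2 : (A * (δ * (R * M)) + 2 * Real.pi * (δ * (R * M)) * (B + δ * (R * M))) *
        (2 * Real.pi) ≤
        δ * ((A * (R * M) + 2 * Real.pi * (R * M) * (B + R * M)) * (2 * Real.pi)) := by
      have hRM : 0 ≤ R * M := by positivity
      have h3 : δ * (R * M) ≤ R * M := by nlinarith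
      have h4 : 2 * Real.pi * (δ * (R * M)) * (B + δ * (R * M)) ≤
          2 * Real.pi * (δ * (R * M)) * (B + R * M) :=
        mul_le_mul_of_nonneg_left (by linarith) (by positivity)
      nlinarith [h4, hpi]
    linarith
  by_contra hcon
  push Not at hcon
  set K : ℝ := (A * (R * M) + 2 * Real.pi * (R * M) * (B + R * M)) * (2 * Real.pi) with hK
  have hK0 : 0 ≤ K := by positivity
  set j : ℝ := J R φ (deriv φ) with hj
  have h1 := hbound (min 1 (j / (2 * (K + 1)))) (by positivity) (min_le_left _ _)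
  have h2 : min 1 (j / (2 * (K + 1))) * K ≤ j / (2 * (K + 1)) * K :=
    mul_le_mul_of_nonneg_right (min_le_right _ _) hK0
  have h3 : j / (2 * (K + 1)) * K ≤ j / 2 := by
    rw [div_mul_eq_mul_div, div_le_div_iff₀ (by positivity) (by norm_num)]
    nlinarith
  linarith


end Pool.Agent.W677.Mar
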